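import Mathlib

/-!
# Set-closure versus 2-closure of a finite permutation group: the core argument

`A` is a group of permutations of a finite set `V`, `g` a permutation mapping every subset of `V`
to an `A`-image of that subset.
-/

namespace Pool.Agent.P07.DGRCore

open Equiv

variable {V : Type*}

/-- `g` maps every subset `U` of `V` to an image of `U` under an element of `A`. -/
def SetClosed (A : Subgroup (Perm V)) (g : Perm V) : Prop :=
  ∀ U : Set V, ∃ a ∈ A, a '' U = g '' U

lemma SetClosed.mul_left {A : Subgroup (Perm V)} {g a : Perm V} (hg : SetClosed A g)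
    (ha : a ∈ A) : SetClosed A (a * g) := by
  intro U
  obtain ⟨b, hb, hbU⟩ := hg U
  refine ⟨a * b, mul_mem ha hb, ?_⟩
  rw [Perm.coe_mul, Perm.coe_mul, Set.image_comp, Set.image_comp, hbU]

lemma SetClosed.mul_right {A : Subgroup (Perm V)} {g a : Perm V} (hg : SetClosed A g)
    (ha : a ∈ A) : SetClosed A (g * a) := by
  intro U
  obtain ⟨b, hb, hbU⟩ := hg (a '' U)
  refine ⟨b * a, mul_mem hb ha, ?_⟩
  rw [Perm.coe_mul, Perm.coe_mul, Set.image_comp, Set.image_comp, hbU]

/-- The orbital of `A` containing the pair `(x, y)`. -/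
def R (A : Subgroup (Perm V)) (x y u v : V) : Prop := ∃ a ∈ A, a x = u ∧ a y = v

section Basic

variable {A : Subgroup (Perm V)} {x y : V}

lemma R.base : R A x y x y := ⟨1, one_mem _, rfl, rfl⟩

lemma R.act {u v : V} (h : R A x y u v) {a : Perm V} (ha : a ∈ A) : R A x y (a u) (a v) := by
  obtain ⟨b, hb, rfl, rfl⟩ := h
  exact ⟨a * b, mul_mem ha hb, rfl, rfl⟩

lemma R.of_act {u v : V} {a : Perm V} (ha : a ∈ A) (h : R A x y (a u) (a v)) : R A x y u v := by
  have := h.act (inv_mem ha)
  simpa using this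

lemma R.conn {u v u' v' : V} (h : R A x y u v) (h' : R A x y u' v') :
    ∃ a ∈ A, a u = u' ∧ a v = v' := by
  obtain ⟨b, hb, rfl, rfl⟩ := h
  obtain ⟨c, hc, rfl, rfl⟩ := h'
  exact ⟨c * b⁻¹, mul_mem hc (inv_mem hb), by simp, by simp⟩

lemma R.asymm (hanti : ¬ R A x y y x) {u v : V} (h : R A x y u v) : ¬ R A x y v u := by
  intro h'
  obtain ⟨a, ha, h1, h2⟩ := h.conn h'
  obtain ⟨b, hb, rfl, rfl⟩ := h
  apply hanti
  refine ⟨b⁻¹ * a * b, mul_mem (mul_mem (inv_mem hb) ha) hb, ?_, ?_⟩
  · simp [h1]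
  · simp [h2]

lemma R.ne (hanti : ¬ R A x y y x) {u v : V} (h : R A x y u v) : u ≠ v := by
  rintro rfl
  exact h.asymm hanti h

lemma SetClosed.pair {g : Perm V} (hg : SetClosed A g) (u v : V) :
    ∃ a ∈ A, (a u = g u ∧ a v = g v) ∨ (a u = g v ∧ a v = g u) := by
  obtain ⟨a, ha, haU⟩ := hg {u, v}
  refine ⟨a, ha, ?_⟩
  rw [Set.image_pair, Set.image_pair] at haU
  exact Set.pair_eq_pair_iff.mp haU

lemma SetClosed.point {g : Perm V} (hg : SetClosed A g) (u : V) : ∃ a ∈ A, a u = g u := by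
  obtain ⟨a, ha, haU⟩ := hg {u}
  refine ⟨a, ha, ?_⟩
  rw [Set.image_singleton, Set.image_singleton] at haU
  exact Set.singleton_injective haU

lemma SetClosed.adj {g : Perm V} (hg : SetClosed A g) {u v : V} (h : R A x y u v) :
    R A x y (g u) (g v) ∨ R A x y (g v) (g u) := by
  obtain ⟨a, ha, ⟨h1, h2⟩ | ⟨h1, h2⟩⟩ := hg.pair u v
  · left; rw [← h1, ← h2]; exact h.act ha
  · right; rw [← h1, ← h2]; exact h.act ha

/-- Being adjacent in the underlying graph of the orbital. -/
def E (A : Subgroup (Perm V)) (x y u v : V) : Prop := R A x y u v ∨ R A x y v u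

lemma E.act {u v : V} (h : E A x y u v) {a : Perm V} (ha : a ∈ A) : E A x y (a u) (a v) :=
  h.imp (fun h => h.act ha) (fun h => h.act ha)

lemma SetClosed.adjE {g : Perm V} (hg : SetClosed A g) {u v : V} (h : E A x y u v) :
    E A x y (g u) (g v) := by
  rcases h with h | h
  · exact hg.adj h
  · exact (hg.adj h).symm

/-- A set of vertices has a source. -/
def Src (A : Subgroup (Perm V)) (x y : V) (U : Set V) : Prop :=
  ∃ p ∈ U, ∀ q ∈ U, q ≠ p → R A x y p q

lemma Src.act {U : Set V} (h : Src A x y U) {a : Perm V} (ha : a ∈ A) :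
    Src A x y (a '' U) := by
  obtain ⟨p, hp, hpq⟩ := h
  refine ⟨a p, ⟨p, hp, rfl⟩, ?_⟩
  rintro _ ⟨q, hq, rfl⟩ hne
  exact (hpq q hq (fun h => hne (by rw [h]))).act ha

lemma Src.of_act {U : Set V} {a : Perm V} (ha : a ∈ A) (h : Src A x y (a '' U)) :
    Src A x y U := by
  obtain ⟨_, ⟨p, hp, rfl⟩, hpq⟩ := h
  refine ⟨p, hp, fun q hq hne => ?_⟩
  exact (hpq (a q) ⟨q, hq, rfl⟩ (fun h => hne (a.injective h))).of_act ha

lemma SetClosed.src {g : Perm V} (hg : SetClosed A g) {U : Set V} :
    Src A x y (g '' U) ↔ Src A x y U := by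
  obtain ⟨a, ha, haU⟩ := hg U
  rw [← haU]
  exact ⟨fun h => h.of_act ha, fun h => h.act ha⟩

end Basic

section Core

variable {A : Subgroup (Perm V)} {x y : V} {h : Perm V}

/-- Out-neighbours of a vertex are pairwise adjacent. -/
lemma out_adj (hanti : ¬ R A x y y x) (hh : SetClosed A h) (hx : h x = x)
    (hy : R A x y (h y) x) {u v w : V} (huv : R A x y u v) (huw : R A x y u w) (hvw : v ≠ w) :
    E A x y v w := by
  obtain ⟨b, hb, hbU⟩ := hh ({x} ∪ {z | R A x y x z})
  have hyx : y ≠ x := (R.base.ne hanti).symm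
  have hbx : b x ≠ x := by
    intro hbx
    have h1 : h y ∈ b '' ({x} ∪ {z | R A x y x z}) := by
      rw [hbU]; exact ⟨y, Or.inr R.base, rfl⟩
    obtain ⟨z, hz | hz, hzy⟩ := h1
    · rw [Set.mem_singleton_iff] at hz
      subst hz
      rw [hbx] at hzy
      apply hyx
      apply h.injective
      rw [← hzy, hx]
    · have h2 : R A x y (b x) (b z) := hz.act hb
      rw [hbx, hzy] at h2
      exact hy.asymm hanti h2
  have hbxx : R A x y (b x) x := by
    have h1 : x ∈ b '' ({x} ∪ {z | R A x y x z}) := by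
      rw [hbU]; exact ⟨x, Or.inl rfl, hx⟩
    obtain ⟨z, hz | hz, hzx⟩ := h1
    · rw [Set.mem_singleton_iff] at hz
      subst hz
      exact absurd hzx hbx
    · have h2 : R A x y (b x) (b z) := hz.act hb
      rwa [hzx] at h2
  have key : ∀ w, R A x y (b x) w → w ≠ x → E A x y x w := by
    intro w hw hwx
    have h1 : w ∈ h '' ({x} ∪ {z | R A x y x z}) := by
      rw [← hbU]
      refine ⟨b⁻¹ w, Or.inr ?_, by simp⟩
      have := hw.act (inv_mem hb)
      simpa using this
    obtain ⟨z, hz | hz, hzw⟩ := h1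
    · rw [Set.mem_singleton_iff] at hz
      subst hz
      exact absurd (hzw.symm.trans hx) hwx
    · have h2 := hh.adj hz
      rw [hx, hzw] at h2
      exact h2
  obtain ⟨a, ha, h1, h2⟩ := hbxx.conn huv
  have h3 : R A x y (b x) (a⁻¹ w) := by
    have := huw.act (inv_mem ha)
    rw [← h1] at this
    simpa using this
  have h4 : a⁻¹ w ≠ x := by
    intro h5
    apply hvw
    rw [← h2, ← h5]
    simp
  have h5 := (key _ h3 h4).act ha
  rw [h2] at h5
  simpa using h5

/-- In-neighbours of a vertex are pairwise adjacent. -/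
lemma in_adj (hanti : ¬ R A x y y x) (hh : SetClosed A h) (hx : h x = x)
    (hy : R A x y (h y) x) {u v w : V} (hvu : R A x y v u) (hwu : R A x y w u) (hvw : v ≠ w) :
    E A x y v w := by
  obtain ⟨b, hb, hbU⟩ := hh ({x} ∪ {z | R A x y z x})
  have hyx : y ≠ x := (R.base.ne hanti).symm
  have hbx : b x ≠ x := by
    intro hbx
    have h1 : h y ∈ h '' ({x} ∪ {z | R A x y z x}) := by
      rw [← hbU]
      refine ⟨b⁻¹ (h y), Or.inr ?_, by simp⟩
      have := hy.act (inv_mem hb)
      rw [Set.mem_ofPred_eq]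
      have hbx' : b⁻¹ x = x := by
        rw [Perm.inv_eq_iff_eq]; exact hbx.symm
      rwa [hbx'] at this
    obtain ⟨z, hz | hz, hzy⟩ := h1
    · rw [Set.mem_singleton_iff] at hz
      subst hz
      exact hyx (h.injective hzy).symm
    · have : z = y := h.injective hzy
      subst this
      exact R.base.asymm hanti hz
  have hbxx : R A x y x (b x) := by
    have h1 : x ∈ b '' ({x} ∪ {z | R A x y z x}) := by
      rw [hbU]; exact ⟨x, Or.inl rfl, hx⟩
    obtain ⟨z, hz | hz, hzx⟩ := h1
    · rw [Set.mem_singleton_iff] at hz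
      subst hz
      exact absurd hzx hbx
    · have h2 : R A x y (b z) (b x) := R.act hz hb
      rwa [hzx] at h2
  have key : ∀ w, R A x y w (b x) → w ≠ x → E A x y x w := by
    intro w hw hwx
    have h1 : w ∈ h '' ({x} ∪ {z | R A x y z x}) := by
      rw [← hbU]
      refine ⟨b⁻¹ w, Or.inr ?_, by simp⟩
      have := hw.act (inv_mem hb)
      simpa using this
    obtain ⟨z, hz | hz, hzw⟩ := h1
    · rw [Set.mem_singleton_iff] at hz
      subst hz
      exact absurd (hzw.symm.trans hx) hwx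
    · have h2 := hh.adj (R.act hz (one_mem A))
      simp only [Perm.coe_one, id_eq] at h2
      rw [hx, hzw] at h2
      exact h2.symm
  obtain ⟨a, ha, h1, h2⟩ := hbxx.conn hvu
  have h3 : R A x y (a⁻¹ w) (b x) := by
    have := hwu.act (inv_mem ha)
    rw [← h2] at this
    simpa using this
  have h4 : a⁻¹ w ≠ x := by
    intro h5
    apply hvw
    rw [← h1, ← h5]
    simp
  have h5 := (key _ h3 h4).act ha
  rw [h1] at h5
  simpa using h5

end Core

end Pool.Agent.P07.DGRCore
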