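import Mathlib
import Pool.Agent.P07.DGRCore

/-!
# Counting in tournaments and the valency one conclusion
-/

namespace Pool.Agent.P07.DGRCore

open Equiv

variable {V : Type*}

/-- In a finite tournament all of whose in-degrees are `e`, there are `2e+1` vertices. -/
lemma tournament_count [DecidableEq V] (T : Finset V) (r : V → V → Prop) [DecidableRel r]
    (hr : ∀ u ∈ T, ∀ v ∈ T, u ≠ v → (r u v ∨ r v u)) (hasym : ∀ u v, r u v → ¬ r v u)
    (e : ℕ) (he : ∀ v ∈ T, (T.filter (fun u => r u v)).card = e) (hT : T.Nonempty) :
    T.card = 2 * e + 1 := by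
  have h1 : ∑ v ∈ T, ∑ u ∈ T, (if r u v then 1 else 0) = T.card * e := by
    rw [Finset.sum_congr rfl (g := fun _ => e), Finset.sum_const, smul_eq_mul]
    intro v hv
    rw [← Finset.card_filter, he v hv]
  have h1' : ∑ v ∈ T, ∑ u ∈ T, (if r v u then 1 else 0) = T.card * e := by
    rw [Finset.sum_comm]; exact h1
  have h2 : ∑ v ∈ T, ∑ u ∈ T, (((if r u v then 1 else 0) + (if r v u then 1 else 0)) +
      (if u = v then 1 else 0)) = T.card * T.card := by
    rw [Finset.sum_congr rfl (g := fun _ => T.card), Finset.sum_const, smul_eq_mul]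
    intro v hv
    rw [Finset.sum_congr rfl (g := fun _ => 1), Finset.sum_const, smul_eq_mul, mul_one]
    intro u hu
    by_cases huv : u = v
    · subst huv
      have : ¬ r u u := fun h => hasym u u h h
      simp [this]
    · rcases hr u hu v hv huv with h | h
      · simp [h, hasym u v h, huv]
      · simp [h, hasym v u h, huv]
  have h3 : ∑ v ∈ T, ∑ u ∈ T, (if u = v then 1 else 0) = T.card := by
    rw [Finset.sum_congr rfl (g := fun _ => 1), Finset.sum_const, smul_eq_mul, mul_one]
    intro v hv
    simp [hv]
  simp only [Finset.sum_add_distrib] at h2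
  rw [h1, h1', h3] at h2
  have hpos : 0 < T.card := Finset.card_pos.mpr hT
  have : T.card * (2 * e + 1) = T.card * T.card := by linarith
  exact (Nat.eq_of_mul_eq_mul_left hpos this).symm

section Count

variable [Fintype V] {A : Subgroup (Perm V)} {x y : V} {h : Perm V}

open Classical in
/-- The in-neighbourhood as a finite set. -/
noncomputable def In (A : Subgroup (Perm V)) (x y u : V) : Finset V :=
  Finset.univ.filter (fun v => R A x y v u)

lemma mem_In {u v : V} : v ∈ In A x y u ↔ R A x y v u := by
  simp [In]

lemma card_In_act {a : Perm V} (ha : a ∈ A) (u : V) :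
    (In A x y (a u)).card = (In A x y u).card := by
  refine (Finset.card_bij (fun v _ => a v) ?_ ?_ ?_).symm
  · intro v hv
    rw [mem_In] at hv ⊢
    exact hv.act ha
  · intro v _ w _ h
    exact a.injective h
  · intro w hw
    rw [mem_In] at hw
    refine ⟨a⁻¹ w, ?_, by simp⟩
    rw [mem_In]
    apply R.of_act ha
    simpa using hw

/-- `x` and `y` lie in one orbit. -/
lemma same_orbit (hh : SetClosed A h) (hy : R A x y (h y) x) : ∃ a ∈ A, a x = y := by
  obtain ⟨a, ha, h1, _⟩ := hy
  obtain ⟨b, hb, h2⟩ := hh.point y
  refine ⟨b⁻¹ * a, mul_mem (inv_mem hb) ha, ?_⟩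
  rw [Perm.mul_apply, h1, Perm.inv_eq_iff_eq]
  exact h2.symm

open Classical in
lemma card_In_eq (hanti : ¬ R A x y y x) (hh : SetClosed A h) (hx : h x = x)
    (hy : R A x y (h y) x) {z : V} (hz : R A x y x z) :
    (In A x y x).card = 2 * ((In A x y x).filter (fun w => R A x y w z)).card + 1 := by
  have hcard : (In A x y z).card = (In A x y x).card := by
    obtain ⟨a, ha, haz⟩ := same_orbit hh hy
    obtain ⟨b, hb, h1, h2⟩ := (R.base (A := A) (x := x) (y := y)).conn hz
    have : z = (b * a) x := by rw [Perm.mul_apply, haz, h2]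
    rw [this, card_In_act (mul_mem hb ha)]
  have h1 := tournament_count (In A x y z) (fun u v => R A x y u v)
    (fun u hu v hv huv => by
      rw [mem_In] at hu hv
      exact in_adj hanti hh hx hy hu hv huv)
    (fun u v huv => huv.asymm hanti)
    ((In A x y z).filter (fun w => R A x y w x)).card
    (fun v hv => by
      rw [mem_In] at hv
      obtain ⟨a, ha, h1, h2⟩ := hz.conn hv
      refine (Finset.card_bij (fun w _ => a w) ?_ ?_ ?_).symm
      · intro w hw
        rw [Finset.mem_filter, mem_In] at hw ⊢
        refine ⟨?_, ?_⟩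
        · have := hw.1.act ha; rwa [h2] at this
        · have := hw.2.act ha; rwa [h1] at this
      · intro v _ w _ h
        exact a.injective h
      · intro w hw
        rw [Finset.mem_filter, mem_In] at hw
        refine ⟨a⁻¹ w, ?_, by simp⟩
        rw [Finset.mem_filter, mem_In]
        constructor
        · apply R.of_act ha
          rw [h2]
          simpa using hw.1
        · apply R.of_act ha
          rw [h1]
          simpa using hw.2)
    ⟨x, by rw [mem_In]; exact hz⟩
  rw [hcard] at h1
  rw [h1]
  congr 2
  congr 1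
  ext w
  rw [Finset.mem_filter, Finset.mem_filter, mem_In, mem_In]
  tauto

/-- For any two out-neighbours of `x` some in-neighbour of `x` dominates neither. -/
lemma exists_common (hanti : ¬ R A x y y x) (hh : SetClosed A h) (hx : h x = x)
    (hy : R A x y (h y) x) {z : V} (hz : R A x y x z) :
    ∃ w, R A x y w x ∧ ¬ R A x y w y ∧ ¬ R A x y w z := by
  classical
  by_contra hcon
  push Not at hcon
  have h1 := card_In_eq hanti hh hx hy (R.base (A := A) (x := x) (y := y))
  have h2 := card_In_eq hanti hh hx hy hz
  have h3 : In A x y x ⊆ (In A x y x).filter (fun w => R A x y w y) ∪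
      (In A x y x).filter (fun w => R A x y w z) := by
    intro w hw
    rw [Finset.mem_union, Finset.mem_filter, Finset.mem_filter]
    by_cases hwy : R A x y w y
    · exact Or.inl ⟨hw, hwy⟩
    · exact Or.inr ⟨hw, hcon w (mem_In.mp hw) hwy⟩
  have h4 := (Finset.card_le_card h3).trans (Finset.card_union_le _ _)
  omega

/-- A triple with `w → x → z`, `w` not dominating `z`, has no source. -/
lemma no_src (hanti : ¬ R A x y y x) {u z w : V} (h1 : R A x y u z) (h2 : R A x y w u)
    (h3 : ¬ R A x y w z) : ¬ Src A x y ({u, z, w} : Set V) := by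
  rintro ⟨p, hp, hpq⟩
  simp only [Set.mem_insert_iff, Set.mem_singleton_iff] at hp hpq
  rcases hp with rfl | rfl | rfl
  · exact h2.asymm hanti (hpq w (Or.inr (Or.inr rfl)) (h2.ne hanti))
  · exact h1.asymm hanti (hpq u (Or.inl rfl) (h1.ne hanti))
  · by_cases hzp : z = p
    · subst hzp
      exact h1.asymm hanti h2
    · exact h3 (hpq z (Or.inr (Or.inl rfl)) hzp)

/-- `h` maps every out-neighbour of `x` to an in-neighbour of `x`. -/
lemma map_out (hanti : ¬ R A x y y x) (hh : SetClosed A h) (hx : h x = x)
    (hy : R A x y (h y) x) {z : V} (hz : R A x y x z) : R A x y (h z) x := by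
  obtain ⟨w, hwx, hwy, hwz⟩ := exists_common hanti hh hx hy hz
  have hEw : E A x y x (h w) := by
    have := hh.adjE (x := x) (y := y) (u := x) (v := w) (Or.inr hwx)
    rwa [hx] at this
  have hyw : y ≠ w := by
    rintro rfl
    exact hanti hwx
  have hzw : z ≠ w := by
    rintro rfl
    exact hz.asymm hanti hwx
  -- h w is an out-neighbour of x
  have hw' : R A x y x (h w) := by
    rcases hEw with h1 | h1
    · exact h1
    · exfalso
      have h2 := no_src hanti (R.base (A := A) (x := x) (y := y)) hwx hwy
      rw [← hh.src] at h2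
      apply h2
      rw [Set.image_insert_eq, Set.image_pair, hx]
      rcases in_adj hanti hh hx hy hy h1 (fun h3 => hyw (h.injective h3)) with h3 | h3
      · refine ⟨h y, by simp, ?_⟩
        intro q hq hqy
        simp only [Set.mem_insert_iff, Set.mem_singleton_iff] at hq
        rcases hq with rfl | rfl | rfl
        · exact hy
        · exact absurd rfl hqy
        · exact h3
      · refine ⟨h w, by simp, ?_⟩
        intro q hq hqw
        simp only [Set.mem_insert_iff, Set.mem_singleton_iff] at hq
        rcases hq with rfl | rfl | rfl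
        · exact h1
        · exact h3
        · exact absurd rfl hqw
  have hEz : E A x y x (h z) := by
    have := hh.adjE (x := x) (y := y) (u := x) (v := z) (Or.inl hz)
    rwa [hx] at this
  rcases hEz with h1 | h1
  · exfalso
    have h2 := no_src hanti hz hwx hwz
    rw [← hh.src] at h2
    apply h2
    rw [Set.image_insert_eq, Set.image_pair, hx]
    refine ⟨x, by simp, ?_⟩
    intro q hq hqx
    simp only [Set.mem_insert_iff, Set.mem_singleton_iff] at hq
    rcases hq with rfl | rfl | rfl
    · exact absurd rfl hqx
    · exact h1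
    · exact hw'
  · exact h1

/-- `x` has a unique out-neighbour. -/
lemma out_unique_base (hanti : ¬ R A x y y x) (hh : SetClosed A h) (hx : h x = x)
    (hy : R A x y (h y) x) {v w : V} (hv : R A x y x v) (hw : R A x y x w) : v = w := by
  obtain ⟨b, hb, hbU⟩ := hh ({x} ∪ {z | R A x y x z})
  -- the sink
  have hsink : ∀ q ∈ ({x} ∪ {z | R A x y x z} : Set V), b q ≠ x → R A x y (b q) x := by
    intro q hq hqx
    have h1 : b q ∈ h '' ({x} ∪ {z | R A x y x z}) := by rw [← hbU]; exact ⟨q, hq, rfl⟩
    obtain ⟨z, hz | hz, hzq⟩ := h1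
    · rw [Set.mem_singleton_iff] at hz
      subst hz
      exact absurd (hzq.symm.trans hx) hqx
    · rw [← hzq]
      exact map_out hanti hh hx hy hz
  have hsU : x ∈ b '' ({x} ∪ {z | R A x y x z}) := by
    rw [hbU]; exact ⟨x, Or.inl rfl, hx⟩
  obtain ⟨s, hs, hbs⟩ := hsU
  have hs1 : s ≠ x := by
    rintro rfl
    have h1 := hsink y (Or.inr R.base) (fun h1 => (R.base (A := A)).ne hanti
      (b.injective (hbs.trans h1.symm)))
    have h1' : R A s y (b y) (b s) := by rw [hbs]; exact h1
    exact hanti (h1'.of_act hb)
  have hs2 : R A x y x s := by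
    rcases hs with h1 | h1
    · exact absurd h1 hs1
    · exact h1
  have hs3 : ∀ q, R A x y x q → ¬ R A x y s q := by
    intro q hq hsq
    have hqs : q ≠ s := (hsq.ne hanti).symm
    have h1 := hsink q (Or.inr hq) (fun h1 => hqs (b.injective (h1.trans hbs.symm)))
    have h1' : R A x y (b q) (b s) := by rw [hbs]; exact h1
    exact hsq.asymm hanti (h1'.of_act hb)
  -- now by transitivity on out-neighbours of x
  have hgen : ∀ p, R A x y x p → ∀ q, R A x y x q → ¬ R A x y p q := by
    intro p hp q hq hpq
    obtain ⟨a, ha, h1, h2⟩ := hp.conn hs2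
    have h3 := hq.act ha
    rw [h1] at h3
    have h4 := hpq.act ha
    rw [h2] at h4
    exact hs3 _ h3 h4
  by_contra hvw
  rcases out_adj hanti hh hx hy hv hw hvw with h1 | h1
  · exact hgen v hv w hw h1
  · exact hgen w hw v hv h1

lemma out_unique (hanti : ¬ R A x y y x) (hh : SetClosed A h) (hx : h x = x)
    (hy : R A x y (h y) x) {u v w : V} (hv : R A x y u v) (hw : R A x y u w) : v = w := by
  obtain ⟨a, ha, h1, h2⟩ := hv.conn (R.base (A := A) (x := x) (y := y))
  have h3 := hw.act ha
  rw [h1] at h3
  have h4 := out_unique_base hanti hh hx hy R.base h3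
  exact a.injective (h2.trans h4)

lemma in_unique (hanti : ¬ R A x y y x) (hh : SetClosed A h) (hx : h x = x)
    (hy : R A x y (h y) x) {u v w : V} (hv : R A x y v u) (hw : R A x y w u) : v = w := by
  by_contra hvw
  rcases in_adj hanti hh hx hy hv hw hvw with h1 | h1
  · exact hw.ne hanti (out_unique hanti hh hx hy h1 hv)
  · exact hv.ne hanti (out_unique hanti hh hx hy h1 hw)

end Count

end Pool.Agent.P07.DGRCore
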