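import Mathlib
import Pool.Agent.P07.DGRCount

/-!
# The cycle attached to a reversed orbital
-/

namespace Pool.Agent.P07.DGRCore

open Equiv

variable {V : Type*} [Fintype V] [DecidableEq V] {A : Subgroup (Perm V)} {x y : V} {h : Perm V}

/-- Out-valency one: there is a permutation `φ` commuting with `A` describing the orbital. -/
lemma exists_phi (hanti : ¬ R A x y y x) (hh : SetClosed A h) (hx : h x = x)
    (hy : R A x y (h y) x) :
    ∃ φ : Perm V, (∀ u v, R A x y u v → φ u = v) ∧ (∀ a ∈ A, ∀ u, φ (a u) = a (φ u)) := by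
  classical
  let f : V → V := fun u => if hu : ∃ v, R A x y u v then hu.choose else u
  have hf1 : ∀ u v, R A x y u v → f u = v := by
    intro u v huv
    have hu : ∃ v, R A x y u v := ⟨v, huv⟩
    have : f u = hu.choose := dif_pos hu
    rw [this]
    exact out_unique hanti hh hx hy hu.choose_spec huv
  have hf2 : ∀ u, (¬ ∃ v, R A x y u v) → f u = u := fun u hu => dif_neg hu
  obtain ⟨τ, hτ, hτx⟩ := same_orbit hh hy
  have hdom : ∀ u v, R A x y u v → ∃ w, R A x y v w := by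
    intro u v huv
    obtain ⟨b, hb, h1, h2⟩ := huv
    refine ⟨(b * τ) y, ?_⟩
    refine ⟨b * τ, mul_mem hb hτ, ?_, rfl⟩
    rw [Perm.mul_apply, hτx, h2]
  have hinj : Function.Injective f := by
    intro u v huv
    by_cases hu : ∃ w, R A x y u w
    · obtain ⟨w, hw⟩ := hu
      rw [hf1 u w hw] at huv
      by_cases hv : ∃ w, R A x y v w
      · obtain ⟨w', hw'⟩ := hv
        rw [hf1 v w' hw'] at huv
        subst huv
        exact in_unique hanti hh hx hy hw hw'
      · rw [hf2 v hv] at huv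
        subst huv
        exact absurd (hdom u w hw) hv
    · rw [hf2 u hu] at huv
      by_cases hv : ∃ w, R A x y v w
      · obtain ⟨w', hw'⟩ := hv
        rw [hf1 v w' hw'] at huv
        subst huv
        exact absurd (hdom v u hw') hu
      · rw [hf2 v hv] at huv
        exact huv
  refine ⟨Equiv.ofBijective f (Finite.injective_iff_bijective.mp hinj), fun u v huv => hf1 u v huv,
    ?_⟩
  intro a ha u
  change f (a u) = a (f u)
  by_cases hu : ∃ v, R A x y u v
  · obtain ⟨v, hv⟩ := hu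
    rw [hf1 u v hv, hf1 _ _ (hv.act ha)]
  · rw [hf2 u hu, hf2 (a u)]
    rintro ⟨w, hw⟩
    apply hu
    refine ⟨a⁻¹ w, R.of_act ha ?_⟩
    simpa using hw

/-- Main structure theorem: from a permutation `h` in the set-closure of `A` which fixes `x` and
reverses the arc `(x, y)` of an antisymmetric orbital we obtain a cycle of length 3, 4 or 5. -/
theorem exists_cycle (h2 : ∀ g : Perm V, (∀ u v, u ≠ v → ∃ a ∈ A, a u = g u ∧ a v = g v) → g ∈ A)
    (hanti : ¬ R A x y y x) (hh : SetClosed A h) (hx : h x = x)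
    (hy : R A x y (h y) x) :
    ∃ ρ ∈ A, ρ.IsCycle ∧ (ρ.support.card = 3 ∨ ρ.support.card = 4 ∨ ρ.support.card = 5) ∧
      ∀ a ∈ A, (∃ u ∈ ρ.support, a u ∈ ρ.support) → ∃ i : ℤ, ∀ u ∈ ρ.support, a u = (ρ ^ i) u := by
  obtain ⟨φ, hφ1, hφ2⟩ := exists_phi hanti hh hx hy
  have hφx : φ x = y := hφ1 _ _ R.base
  have hyx : y ≠ x := (R.base.ne hanti).symm
  have hφxx : φ x ≠ x := by rw [hφx]; exact hyx
  -- commutation with powers
  have hcomm : ∀ a ∈ A, ∀ (n : ℤ) (u : V), a ((φ ^ n) u) = (φ ^ n) (a u) := by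
    intro a ha n u
    have hc : Commute a φ := by
      ext v
      exact (hφ2 a ha v).symm
    have := (hc.zpow_right n).eq
    calc a ((φ ^ n) u) = (a * φ ^ n) u := rfl
      _ = (φ ^ n * a) u := by rw [this]
      _ = (φ ^ n) (a u) := rfl
  obtain ⟨τ, hτ, hτx⟩ := same_orbit hh hy
  have hτφ : τ x = φ x := by rw [hτx, hφx]
  -- the arc (φ x, φ φ x)
  have hRy : R A x y y (φ y) := by
    have h1 : R A x y (τ x) (τ y) := R.base.act hτ
    rw [hτx] at h1
    rw [hφ1 _ _ h1]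
    exact h1
  have hRxy : R A x y x y := R.base
  have hφφ : φ (φ x) ≠ x := by
    intro h1
    rw [hφx] at h1
    rw [h1] at hRy
    exact hanti hRy
  -- m := length of the cycle
  set m : ℕ := (φ.cycleOf x).support.card with hm
  have hzz : ∀ i j : ℤ, (φ ^ i) x = (φ ^ j) x ↔ (m : ℤ) ∣ i - j := by
    intro i j
    rw [Perm.zpow_eq_zpow_on_iff φ hφxx, ← hm, Int.emod_eq_emod_iff_emod_sub_eq_zero,
      ← Int.dvd_iff_emod_eq_zero]
  have hm1 : ¬ (m : ℤ) ∣ 1 := by
    intro h1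
    have := (hzz 1 0).mpr (by simpa using h1)
    simp at this
    exact hφxx this
  have hm2 : ¬ (m : ℤ) ∣ 2 := by
    intro h1
    have := (hzz 2 0).mpr (by simpa using h1)
    rw [zpow_ofNat, zpow_zero] at this
    exact hφφ (by simpa [pow_two] using this)
  -- adjacency rule for SetClosed permutations
  have hadj : ∀ g : Perm V, SetClosed A g → ∀ i : ℤ,
      φ (g ((φ ^ i) x)) = g ((φ ^ (i + 1)) x) ∨ φ (g ((φ ^ (i + 1)) x)) = g ((φ ^ i) x) := by
    intro g hg i
    -- R (φ^i x) (φ^(i+1) x)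
    have hR : R A x y ((φ ^ i) x) ((φ ^ (i + 1)) x) := by
      have hτi : ∀ i : ℤ, (τ ^ i) x = (φ ^ i) x := by
        intro i
        have hc : Commute τ φ := by
          ext v
          exact (hφ2 τ hτ v).symm
        have h3 : ((φ⁻¹ * τ) ^ i) x = x := by
          apply Perm.zpow_apply_eq_self_of_apply_eq_self
          rw [Perm.mul_apply, hτφ]
          simp
        have h4 : (φ⁻¹ * τ) ^ i = (φ ^ i)⁻¹ * τ ^ i := by
          rw [(hc.symm.inv_left).mul_zpow, inv_zpow]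
        rw [h4, Perm.mul_apply, Perm.inv_eq_iff_eq] at h3
        exact h3
      have h5 := (R.base (A := A) (x := x) (y := y)).act (zpow_mem hτ i)
      have h6 : (τ ^ i) y = (φ ^ (i + 1)) x := by
        rw [← hτx, ← hτi (i + 1), zpow_add_one]
        rfl
      rwa [hτi, h6] at h5
    rcases hg.adj hR with h1 | h1
    · exact Or.inl (hφ1 _ _ h1)
    · exact Or.inr (hφ1 _ _ h1)
  -- h acts as a reflection on the cycle
  have hhn : ∀ n : ℕ, h ((φ ^ (n : ℤ)) x) = (φ ^ (-(n : ℤ))) x ∧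
      h ((φ ^ ((n : ℤ) + 1)) x) = (φ ^ (-((n : ℤ) + 1))) x := by
    intro n
    induction n with
    | zero =>
      refine ⟨by simpa using hx, ?_⟩
      simp only [Nat.cast_zero, zero_add, zpow_one, zpow_neg]
      rw [hφx, Perm.eq_inv_iff_eq]
      exact hφ1 _ _ hy
    | succ n ih =>
      obtain ⟨ih1, ih2⟩ := ih
      refine ⟨by push_cast; exact ih2, ?_⟩
      push_cast
      rcases hadj h hh (n + 1) with h1 | h1
      · exfalso
        rw [ih2, ← Perm.mul_apply, ← zpow_one_add] at h1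
        have h3 : (φ ^ (1 + -((n : ℤ) + 1))) x = (φ ^ (-(n : ℤ))) x := by
          congr 2; ring
        rw [h3, ← ih1] at h1
        have h4 := h.injective h1
        rw [hzz] at h4
        apply hm2
        have : (n : ℤ) - (n + 1 + 1) = - 2 := by ring
        rw [this, dvd_neg] at h4
        exact h4
      · rw [ih2, ← Perm.eq_inv_iff_eq, ← zpow_neg_one] at h1
        rw [h1, ← Perm.mul_apply, ← zpow_add]
        congr 2
        ring
  have hhz : ∀ n : ℤ, h ((φ ^ n) x) = (φ ^ (-n)) x := by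
    intro n
    obtain ⟨k, hk⟩ : ∃ k : ℕ, φ ^ (k : ℤ) = φ ^ n := by
      refine ⟨(n % (orderOf φ : ℤ)).toNat, ?_⟩
      rw [Int.toNat_of_nonneg (Int.emod_nonneg _ (by exact_mod_cast (orderOf_pos φ).ne')),
        zpow_mod_orderOf]
    rw [← hk, zpow_neg, ← hk, ← zpow_neg]
    exact (hhn k).1
  -- the second reflection
  set g : Perm V := h * τ with hg
  have hgc : SetClosed A g := hh.mul_right hτ
  have hτz : ∀ n : ℤ, τ ((φ ^ n) x) = (φ ^ (n + 1)) x := by
    intro n
    rw [hcomm τ hτ, hτφ, ← Perm.mul_apply, ← zpow_add_one]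
  have hgz : ∀ n : ℤ, g ((φ ^ n) x) = (φ ^ (-(n + 1))) x := by
    intro n
    rw [hg, Perm.mul_apply, hτz, hhz]
  -- upper bound on m
  have hm5 : m ≤ 5 := by
    by_contra hcon
    push Not at hcon
    have hnd : ∀ k : ℤ, k ≠ 0 → |k| ≤ 5 → ¬ (m : ℤ) ∣ k := by
      intro k hk1 hk2 hk3
      have := Int.le_of_dvd (abs_pos.mpr hk1) ((dvd_abs _ _).mpr hk3)
      omega
    obtain ⟨b, hb, hbU⟩ := hh {x, (φ ^ (1 : ℤ)) x, (φ ^ (3 : ℤ)) x}
    have himg : h '' {x, (φ ^ (1 : ℤ)) x, (φ ^ (3 : ℤ)) x} =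
        {x, (φ ^ (-1 : ℤ)) x, (φ ^ (-3 : ℤ)) x} := by
      rw [Set.image_insert_eq, Set.image_pair, hx, hhz, hhz]
    rw [himg, Set.image_insert_eq, Set.image_pair] at hbU
    have e1 : b x ∈ ({x, (φ ^ (-1 : ℤ)) x, (φ ^ (-3 : ℤ)) x} : Set V) := by
      rw [← hbU]; simp
    have e2 : b ((φ ^ (1 : ℤ)) x) ∈ ({x, (φ ^ (-1 : ℤ)) x, (φ ^ (-3 : ℤ)) x} : Set V) := by
      rw [← hbU]; simp
    have e3 : b ((φ ^ (3 : ℤ)) x) ∈ ({x, (φ ^ (-1 : ℤ)) x, (φ ^ (-3 : ℤ)) x} : Set V) := by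
      rw [← hbU]; simp
    rw [hcomm b hb] at e2 e3
    simp only [Set.mem_insert_iff, Set.mem_singleton_iff] at e1 e2 e3
    have hx0 : x = (φ ^ (0 : ℤ)) x := by simp
    have red : ∀ i j k : ℤ, (φ ^ i) ((φ ^ j) x) = (φ ^ k) x ↔ (m : ℤ) ∣ i + j - k := by
      intro i j k
      rw [← Perm.mul_apply, ← zpow_add, hzz]
    have red0 : ∀ i j : ℤ, (φ ^ i) ((φ ^ j) x) = x ↔ (m : ℤ) ∣ i + j := by
      intro i j
      have := red i j 0
      simpa using this
    have red1 : ∀ i j : ℤ, (φ ^ i) x = (φ ^ j) x ↔ (m : ℤ) ∣ i - j := fun i j => hzz i j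
    have red2 : ∀ i : ℤ, (φ ^ i) x = x ↔ (m : ℤ) ∣ i := by
      intro i
      have := hzz i 0
      simpa using this
    rcases e1 with e1 | e1 | e1
    · rw [e1, red2, red1, red1] at e2
      rcases e2 with h' | h' | h' <;> exact hnd _ (by norm_num) (by norm_num) h'
    · rw [e1, red0, red, red] at e3
      rcases e3 with h' | h' | h' <;> exact hnd _ (by norm_num) (by norm_num) h'
    · rw [e1, red0, red, red] at e2
      rcases e2 with h' | h' | h' <;> exact hnd _ (by norm_num) (by norm_num) h'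
  -- membership in the cycle
  have hKact : ∀ b ∈ A, ∀ i j : ℤ, b ((φ ^ i) x) = (φ ^ j) x →
      ∀ n : ℤ, b ((φ ^ n) x) = (φ ^ (n + (j - i))) x := by
    intro b hb i j hij n
    have h3 : (φ ^ n) x = (φ ^ (n - i)) ((φ ^ i) x) := by
      rw [← Perm.mul_apply, ← zpow_add]; congr 2; ring
    rw [h3, hcomm b hb, hij, ← Perm.mul_apply, ← zpow_add]
    congr 2; ring
  have hKout : ∀ b ∈ A, ∀ i j : ℤ, b ((φ ^ i) x) = (φ ^ j) x →
      ∀ z, (¬ ∃ n : ℤ, (φ ^ n) x = z) → ¬ ∃ n : ℤ, (φ ^ n) x = b z := by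
    intro b hb i j hij z hz
    rintro ⟨n, hn⟩
    apply hz
    refine ⟨n - (j - i), ?_⟩
    apply b.injective
    rw [hKact b hb i j hij, ← hn]
    congr 2; ring
  have hgout : ∀ z, (¬ ∃ n : ℤ, (φ ^ n) x = z) → ¬ ∃ n : ℤ, (φ ^ n) x = g z := by
    intro z hz
    rintro ⟨n, hn⟩
    apply hz
    refine ⟨-n - 1, ?_⟩
    apply g.injective
    rw [hgz, ← hn]
    congr 2; ring
  have hpair : ∀ i j : ℤ, (φ ^ i) x ≠ (φ ^ j) x → ∀ z, (¬ ∃ n : ℤ, (φ ^ n) x = z) →
      ∃ b ∈ A, b z = g z ∧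
        ((b ((φ ^ i) x) = g ((φ ^ i) x) ∧ b ((φ ^ j) x) = g ((φ ^ j) x)) ∨
          (b ((φ ^ i) x) = g ((φ ^ j) x) ∧ b ((φ ^ j) x) = g ((φ ^ i) x))) := by
    intro i j hij z hz
    obtain ⟨b, hb, hbU⟩ := hgc {(φ ^ i) x, (φ ^ j) x, z}
    refine ⟨b, hb, ?_⟩
    rw [Set.image_insert_eq, Set.image_pair, Set.image_insert_eq, Set.image_pair] at hbU
    have m1 : b ((φ ^ i) x) ∈ ({g ((φ ^ i) x), g ((φ ^ j) x), g z} : Set V) := by
      rw [← hbU]; simp
    have m2 : b ((φ ^ j) x) ∈ ({g ((φ ^ i) x), g ((φ ^ j) x), g z} : Set V) := by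
      rw [← hbU]; simp
    have m3 : b z ∈ ({g ((φ ^ i) x), g ((φ ^ j) x), g z} : Set V) := by
      rw [← hbU]; simp
    have m4 : g ((φ ^ i) x) ∈ ({b ((φ ^ i) x), b ((φ ^ j) x), b z} : Set V) := by
      rw [hbU]; simp
    have m5 : g ((φ ^ j) x) ∈ ({b ((φ ^ i) x), b ((φ ^ j) x), b z} : Set V) := by
      rw [hbU]; simp
    simp only [Set.mem_insert_iff, Set.mem_singleton_iff] at m1 m2 m3 m4 m5
    have hgz' := hgout z hz
    have hin : ∃ n : ℤ, (φ ^ n) x = b ((φ ^ i) x) := by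
      by_contra hcon
      have hcon2 : ¬ ∃ n : ℤ, (φ ^ n) x = b ((φ ^ j) x) := by
        rintro ⟨n, hn⟩
        apply hcon
        refine ⟨i + (n - j), ?_⟩
        rw [hKact b hb j n hn.symm]
      have e4 : g ((φ ^ i) x) = b z := by
        rcases m4 with h' | h' | h'
        · exact absurd ⟨_, (hgz i).symm.trans h'⟩ hcon
        · exact absurd ⟨_, (hgz i).symm.trans h'⟩ hcon2
        · exact h'
      have e5 : g ((φ ^ j) x) = b z := by
        rcases m5 with h' | h' | h'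
        · exact absurd ⟨_, (hgz j).symm.trans h'⟩ hcon
        · exact absurd ⟨_, (hgz j).symm.trans h'⟩ hcon2
        · exact h'
      exact hij (g.injective (e4.trans e5.symm))
    obtain ⟨k, hk⟩ := hin
    have hbz := hKout b hb i k hk.symm z hz
    have hbj : b ((φ ^ j) x) = (φ ^ (j + (k - i))) x := hKact b hb i k hk.symm j
    have hbz' : b z = g z := by
      rcases m3 with h' | h' | h'
      · exact absurd ⟨_, (hgz i).symm.trans h'.symm⟩ hbz
      · exact absurd ⟨_, (hgz j).symm.trans h'.symm⟩ hbz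
      · exact h'
    refine ⟨hbz', ?_⟩
    have m1' : b ((φ ^ i) x) = g ((φ ^ i) x) ∨ b ((φ ^ i) x) = g ((φ ^ j) x) := by
      rcases m1 with h' | h' | h'
      · exact Or.inl h'
      · exact Or.inr h'
      · exact absurd ⟨k, hk.trans h'⟩ hgz'
    have m2' : b ((φ ^ j) x) = g ((φ ^ i) x) ∨ b ((φ ^ j) x) = g ((φ ^ j) x) := by
      rcases m2 with h' | h' | h'
      · exact Or.inl h'
      · exact Or.inr h'
      · exact absurd ⟨_, hbj.symm.trans h'⟩ hgz'
    rcases m1' with h' | h' <;> rcases m2' with h'' | h''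
    · exact absurd (b.injective (h'.trans h''.symm)) hij
    · exact Or.inl ⟨h', h''⟩
    · exact Or.inr ⟨h', h''⟩
    · exact absurd (b.injective (h'.trans h''.symm)) hij
  -- points outside the cycle do not distinguish points of the cycle
  have hx0 : (φ ^ (0 : ℤ)) x = x := by simp
  have hmod : ∀ z, (¬ ∃ n : ℤ, (φ ^ n) x = z) → ∃ a ∈ A, a z = z ∧ a x = φ x := by
    intro z hz
    obtain ⟨b1, hb1, hb1z, hb1x⟩ := hpair 0 (-1) (by
      rw [Ne, hzz]; norm_num; exact hm1) z hz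
    obtain ⟨b2, hb2, hb2z, hb2x⟩ := hpair 1 (-1) (by
      rw [Ne, hzz]; norm_num; exact hm2) z hz
    rw [hgz, hgz] at hb1x hb2x
    have e1 : b1 x = x := by
      rcases hb1x with ⟨h', h''⟩ | ⟨h', h''⟩
      · exfalso
        rw [hKact b1 hb1 0 _ h' (-1), hzz] at h''
        norm_num at h''
        exact hm2 h''
      · rw [hx0] at h'
        rw [h']
        simp
    have e2 : b2 x = φ x ∨ b2 (φ x) = x := by
      rcases hb2x with ⟨h', h''⟩ | ⟨h', h''⟩
      · left
        have h3 := hKact b2 hb2 1 _ h' (-1)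
        rw [h'', hzz] at h3
        have h4 := hKact b2 hb2 1 _ h' 0
        rw [hx0] at h4
        rw [h4]
        have h5 : (φ ^ (0 + (-(1 + 1) - 1) : ℤ)) x = (φ ^ (1 : ℤ)) x := by
          rw [hzz, show ((0 : ℤ) + (-(1 + 1) - 1) - 1) = -4 by norm_num, Int.dvd_neg]
          rw [show (-(-1 + 1) - (-1 + (-(1 + 1) - 1)) : ℤ) = 4 by norm_num] at h3
          exact h3
        rw [h5]
        simp
      · right
        have h3 : (φ ^ (1 : ℤ)) x = φ x := by simp
        rw [h3] at h'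
        rw [h']
        simp
    rcases e2 with e2 | e2
    · refine ⟨b1⁻¹ * b2, mul_mem (inv_mem hb1) hb2, ?_, ?_⟩
      · rw [Perm.mul_apply, Perm.inv_eq_iff_eq, hb2z, hb1z]
      · rw [Perm.mul_apply, Perm.inv_eq_iff_eq, e2]
        have := hcomm b1 hb1 1 x
        simp only [zpow_one] at this
        rw [this, e1]
    · refine ⟨b2⁻¹ * b1, mul_mem (inv_mem hb2) hb1, ?_, ?_⟩
      · rw [Perm.mul_apply, Perm.inv_eq_iff_eq, hb2z, hb1z]
      · rw [Perm.mul_apply, Perm.inv_eq_iff_eq, e1, e2]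
  -- elements of A acting as φ at x act as φ on the whole cycle
  have hφK : ∀ a ∈ A, a x = φ x → ∀ v, φ.SameCycle x v → a v = φ v := by
    rintro a ha hax v ⟨n, rfl⟩
    have h3 : a ((φ ^ (0 : ℤ)) x) = (φ ^ (1 : ℤ)) x := by simpa using hax
    rw [hKact a ha 0 1 h3, ← Perm.mul_apply, ← zpow_one_add]
    congr 2; ring
  refine ⟨φ.cycleOf x, ?_, Perm.isCycle_cycleOf φ hφxx, ?_, ?_⟩
  · apply h2
    intro u v huv
    by_cases hu : φ.SameCycle x u <;> by_cases hv : φ.SameCycle x v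
    · refine ⟨τ, hτ, ?_, ?_⟩
      · rw [hu.cycleOf_apply]; exact hφK τ hτ hτφ u hu
      · rw [hv.cycleOf_apply]; exact hφK τ hτ hτφ v hv
    · obtain ⟨a, ha, haz, hax⟩ := hmod v hv
      refine ⟨a, ha, ?_, ?_⟩
      · rw [hu.cycleOf_apply]; exact hφK a ha hax u hu
      · rw [Perm.cycleOf_apply_of_not_sameCycle hv]; exact haz
    · obtain ⟨a, ha, haz, hax⟩ := hmod u hu
      refine ⟨a, ha, ?_, ?_⟩
      · rw [Perm.cycleOf_apply_of_not_sameCycle hu]; exact haz
      · rw [hv.cycleOf_apply]; exact hφK a ha hax v hv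
    · refine ⟨1, one_mem _, ?_, ?_⟩
      · rw [Perm.cycleOf_apply_of_not_sameCycle hu]; rfl
      · rw [Perm.cycleOf_apply_of_not_sameCycle hv]; rfl
  · rw [← hm]
    have h3 : m ≠ 0 := by
      intro h0
      have : (φ.cycleOf x).support.Nonempty := Perm.support_cycleOf_nonempty.mpr hφxx
      have := Finset.card_pos.mpr this
      omega
    have h4 : m ≠ 1 := by
      intro h1
      apply hm1
      rw [h1]; norm_num
    have h5 : m ≠ 2 := by
      intro h1
      apply hm2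
      rw [h1]; norm_num
    omega
  · rintro a ha ⟨u, hu, hau⟩
    rw [Perm.mem_support_cycleOf_iff' hφxx] at hu hau
    obtain ⟨i, hi⟩ := hu
    obtain ⟨j, hj⟩ := hau
    refine ⟨j - i, ?_⟩
    intro v hv
    rw [Perm.mem_support_cycleOf_iff' hφxx] at hv
    rw [hv.cycleOf_eq, Perm.cycleOf_zpow_apply_self]
    obtain ⟨n, rfl⟩ := hv
    rw [hKact a ha i j (by rw [hi, hj]) n, ← Perm.mul_apply, ← zpow_add]
    congr 2; ring

end Pool.Agent.P07.DGRCore
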