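import Mathlib
import Pool.Agent.P07.DGRCycle

/-!
# Reflections of short cycles, and the primitive case
-/

namespace Pool.Agent.P07.DGRCore

open Equiv

lemma refl_three : ∀ S : Fin 3 → Bool, ∃ j : Fin 3, ∀ k : Fin 3, S (-k) = S (k - j) := by decide

lemma refl_four : ∀ S : Fin 4 → Bool, ∃ j : Fin 4, ∀ k : Fin 4, S (-k) = S (k - j) := by
  decide +kernel

lemma refl_five : ∀ S : Fin 5 → Bool, ∃ j : Fin 5, ∀ k : Fin 5, S (-k) = S (k - j) := by
  decide +kernel

lemma refl_zmod (m : ℕ) (hm : m = 3 ∨ m = 4 ∨ m = 5) :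
    ∀ S : ZMod m → Bool, ∃ j : ZMod m, ∀ k : ZMod m, S (-k) = S (k - j) := by
  rcases hm with rfl | rfl | rfl
  · exact refl_three
  · exact refl_four
  · exact refl_five

/-- For a `m`-periodic predicate on the integers, `m ∈ {3,4,5}`, reflection is a translation. -/
lemma refl_int (m : ℕ) (hm : m = 3 ∨ m = 4 ∨ m = 5) (s : ℤ → Prop)
    (hs : ∀ i j : ℤ, (m : ℤ) ∣ i - j → (s i ↔ s j)) : ∃ j : ℤ, ∀ n : ℤ, s (-n) ↔ s (n - j) := by
  classical
  have hm0 : NeZero m := ⟨by omega⟩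
  obtain ⟨j, hj⟩ := refl_zmod m hm (fun i => decide (s (i.val : ℤ)))
  refine ⟨(j.val : ℤ), fun n => ?_⟩
  have h1 := hj (n : ZMod m)
  rw [decide_eq_decide] at h1
  have h2 : s (-n) ↔ s (((-(n : ZMod m)).val : ℕ) : ℤ) := by
    apply hs
    rw [← ZMod.intCast_eq_intCast_iff_dvd_sub]
    push_cast
    simp
  have h3 : s (n - (j.val : ℤ)) ↔ s ((((n : ZMod m) - j).val : ℕ) : ℤ) := by
    apply hs
    rw [← ZMod.intCast_eq_intCast_iff_dvd_sub]
    push_cast
    simp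
  rw [h2, h1, ← h3]

variable {V : Type*} [Fintype V] [DecidableEq V]

/-- The reflection of a short cycle: it maps every subset to its image under a power of the
cycle, but it is not a power of the cycle on the support. -/
lemma exists_reflection (ρ : Perm V) (hρ : ρ.IsCycle)
    (hcard : ρ.support.card = 3 ∨ ρ.support.card = 4 ∨ ρ.support.card = 5) :
    ∃ g : Perm V, (∀ U : Set V, ∃ j : ℤ, (ρ ^ j) '' U = g '' U) ∧
      (∃ x ∈ ρ.support, g x ∈ ρ.support) ∧
      ¬ ∃ i : ℤ, ∀ x ∈ ρ.support, g x = (ρ ^ i) x := by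
  classical
  obtain ⟨x, hx, hcyc⟩ := hρ
  have hρ' : ρ.IsCycle := ⟨x, hx, hcyc⟩
  have hzz : ∀ i j : ℤ, (ρ ^ i) x = (ρ ^ j) x ↔ (ρ.support.card : ℤ) ∣ i - j := by
    intro i j
    rw [Perm.zpow_eq_zpow_on_iff ρ hx, hρ'.cycleOf_eq hx, Int.emod_eq_emod_iff_emod_sub_eq_zero,
      ← Int.dvd_iff_emod_eq_zero]
  let f : V → V := fun v => if h : ∃ n : ℤ, (ρ ^ n) x = v then (ρ ^ (-h.choose)) x else v
  have hf1 : ∀ n : ℤ, f ((ρ ^ n) x) = (ρ ^ (-n)) x := by
    intro n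
    have h : ∃ k : ℤ, (ρ ^ k) x = (ρ ^ n) x := ⟨n, rfl⟩
    have h1 : f ((ρ ^ n) x) = (ρ ^ (-h.choose)) x := dif_pos h
    rw [h1, hzz]
    have h2 := (hzz _ _).mp h.choose_spec
    have h3 : -h.choose - -n = -(h.choose - n) := by ring
    rw [h3, Int.dvd_neg]
    exact h2
  have hf2 : ∀ v, (¬ ∃ n : ℤ, (ρ ^ n) x = v) → f v = v := fun v hv => dif_neg hv
  have hinv : Function.Involutive f := by
    intro v
    by_cases hv : ∃ n : ℤ, (ρ ^ n) x = v
    · obtain ⟨n, rfl⟩ := hv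
      rw [hf1, hf1, neg_neg]
    · rw [hf2 v hv, hf2 v hv]
  have hsupp : ∀ v, v ∈ ρ.support ↔ ∃ n : ℤ, (ρ ^ n) x = v := by
    intro v
    constructor
    · intro hv
      exact hcyc (Perm.mem_support.mp hv)
    · rintro ⟨n, rfl⟩
      rw [Perm.zpow_apply_mem_support, Perm.mem_support]
      exact hx
  refine ⟨hinv.toPerm f, ?_, ⟨x, Perm.mem_support.mpr hx, ?_⟩, ?_⟩
  · intro U
    obtain ⟨j, hj⟩ := refl_int ρ.support.card hcard (fun n => (ρ ^ n) x ∈ U) (by
      intro i j hij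
      rw [← hzz] at hij
      rw [hij])
    refine ⟨j, ?_⟩
    ext v
    have e1 : v ∈ (hinv.toPerm f) '' U ↔ f v ∈ U := by
      rw [Equiv.image_eq_preimage_symm]
      rfl
    have e2 : v ∈ (ρ ^ j) '' U ↔ (ρ ^ (-j)) v ∈ U := by
      rw [Equiv.image_eq_preimage_symm, Set.mem_preimage, zpow_neg]
      rfl
    rw [e1, e2]
    by_cases hv : ∃ n : ℤ, (ρ ^ n) x = v
    · obtain ⟨n, rfl⟩ := hv
      rw [hf1, ← Perm.mul_apply, ← zpow_add, show -j + n = n - j by ring]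
      exact (hj n).symm
    · rw [hf2 v hv]
      have h1 : v ∉ ρ.support := fun h => hv ((hsupp v).mp h)
      have h2 : (ρ ^ (-j)) v = v :=
        Perm.zpow_apply_eq_self_of_apply_eq_self (Perm.notMem_support.mp h1) _
      rw [h2]
  · have h1 : (hinv.toPerm f) x = x := by
      have := hf1 0
      simpa using this
    rw [h1]
    exact Perm.mem_support.mpr hx
  · rintro ⟨i, hi⟩
    have h1 := hi x (Perm.mem_support.mpr hx)
    have h2 := hi (ρ x) (Perm.apply_mem_support.mpr (Perm.mem_support.mpr hx))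
    have e1 : (hinv.toPerm f) x = x := by
      have := hf1 0
      simpa using this
    have e2 : (hinv.toPerm f) (ρ x) = (ρ ^ (-1 : ℤ)) x := by
      have := hf1 1
      simpa using this
    rw [e1] at h1
    have e3 : (ρ ^ i) (ρ x) = (ρ ^ (1 : ℤ)) ((ρ ^ i) x) := by
      rw [← Perm.mul_apply, ← Perm.mul_apply, ← zpow_add, add_comm, zpow_add_one]
    rw [e2, e3, ← h1, hzz] at h2
    have h3 : (ρ.support.card : ℤ) ∣ 2 := by
      rw [← Int.dvd_neg]
      exact h2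
    have h4 := Int.le_of_dvd (by norm_num) h3
    omega

end Pool.Agent.P07.DGRCore
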