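import Mathlib
import Pool.Agent.P07.DGRConverse

/-!
# The primitive case
-/

namespace Pool.Agent.P07.DGRCore

open Equiv
open scoped Pointwise

variable {V : Type*} [Fintype V] [DecidableEq V]

lemma primitive_case {A : Subgroup (Perm V)} (hprim : MulAction.IsPreprimitive A V) {ρ : Perm V}
    (hρA : ρ ∈ A) (hρ : ρ.IsCycle)
    (hcard : ρ.support.card = 3 ∨ ρ.support.card = 4 ∨ ρ.support.card = 5)
    (hstar : ∀ a ∈ A, (∃ u ∈ ρ.support, a u ∈ ρ.support) →
      ∃ i : ℤ, ∀ u ∈ ρ.support, a u = (ρ ^ i) u) :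
    ρ.support = Finset.univ ∧ (Fintype.card V = 3 ∨ Fintype.card V = 5) ∧
      A = Subgroup.zpowers ρ := by
  classical
  have hblock : MulAction.IsBlock A (ρ.support : Set V) := by
    rw [MulAction.isBlock_iff_smul_eq_of_mem]
    intro a u hu hau
    obtain ⟨i, hi⟩ := hstar a.1 a.2 ⟨u, hu, hau⟩
    ext v
    rw [Set.mem_smul_set]
    constructor
    · rintro ⟨w, hw, rfl⟩
      have : a • w = (ρ ^ i) w := hi w (by simpa using hw)
      rw [this]
      have h1 : (ρ ^ i) w ∈ ρ.support := Perm.zpow_apply_mem_support.mpr (by simpa using hw)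
      simpa using h1
    · intro hv
      refine ⟨(ρ ^ (-i)) v, ?_, ?_⟩
      · have h1 : (ρ ^ (-i)) v ∈ ρ.support :=
          Perm.zpow_apply_mem_support.mpr (by simpa using hv)
        simpa using h1
      · have h1 : (ρ ^ (-i)) v ∈ ρ.support :=
          Perm.zpow_apply_mem_support.mpr (by simpa using hv)
        have h2 : a • ((ρ ^ (-i)) v) = (ρ ^ i) ((ρ ^ (-i)) v) := hi _ h1
        rw [h2, ← Perm.mul_apply, ← zpow_add]
        simp
  have huniv : ρ.support = Finset.univ := by
    rcases hprim.isTrivialBlock_of_isBlock hblock with h1 | h1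
    · exfalso
      have h2 : ρ.support.card ≤ 1 := by
        rw [Finset.card_le_one]
        intro a ha b hb
        exact h1 (by simpa using ha) (by simpa using hb)
      omega
    · rw [← Finset.coe_eq_univ]
      exact h1
  have hV : Fintype.card V = ρ.support.card := by rw [huniv, Finset.card_univ]
  have hA : A = Subgroup.zpowers ρ := by
    apply le_antisymm
    · intro a ha
      obtain ⟨x, hx⟩ : ρ.support.Nonempty := by
        rw [← Finset.card_pos]; omega
      obtain ⟨i, hi⟩ := hstar a ha ⟨x, hx, by rw [huniv]; exact Finset.mem_univ _⟩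
      rw [Subgroup.mem_zpowers_iff]
      refine ⟨i, ?_⟩
      ext v
      exact (hi v (by rw [huniv]; exact Finset.mem_univ _)).symm
    · rw [Subgroup.zpowers_le]
      exact hρA
  refine ⟨huniv, ?_, hA⟩
  rw [hV]
  rcases hcard with h1 | h1 | h1
  · exact Or.inl h1
  · exfalso
    obtain ⟨x, hx, hcyc⟩ := hρ
    have hρ' : ρ.IsCycle := ⟨x, hx, hcyc⟩
    have hzz : ∀ i j : ℤ, (ρ ^ i) x = (ρ ^ j) x ↔ (4 : ℤ) ∣ i - j := by
      intro i j
      rw [Perm.zpow_eq_zpow_on_iff ρ hx, hρ'.cycleOf_eq hx, Int.emod_eq_emod_iff_emod_sub_eq_zero,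
        ← Int.dvd_iff_emod_eq_zero, h1]
      norm_num
    have hB : MulAction.IsBlock A ({x, (ρ ^ (2 : ℤ)) x} : Set V) := by
      rw [MulAction.isBlock_iff_smul_eq_of_mem]
      intro a u hu hau
      have ha : (a : Perm V) ∈ Subgroup.zpowers ρ := hA.le a.2
      rw [Subgroup.mem_zpowers_iff] at ha
      obtain ⟨i, hi⟩ := ha
      have hact : ∀ w, a • w = (ρ ^ i) w := by
        intro w
        rw [hi]
        rfl
      have hx0 : x = (ρ ^ (0 : ℤ)) x := by simp
      have hi2 : (2 : ℤ) ∣ i := by
        rw [hact] at hau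
        simp only [Set.mem_insert_iff, Set.mem_singleton_iff] at hu hau
        rcases hu with rfl | rfl
        · rcases hau with h3 | h3
          · have h4 := (hzz i 0).mp (by simpa using h3)
            omega
          · have h4 := (hzz i 2).mp h3
            omega
        · rw [← Perm.mul_apply, ← zpow_add] at hau
          rcases hau with h3 | h3
          · have h4 := (hzz (i + 2) 0).mp (by simpa using h3)
            omega
          · have h4 := (hzz (i + 2) 2).mp h3
            omega
      have hset : a • ({x, (ρ ^ (2 : ℤ)) x} : Set V) = {(ρ ^ i) x, (ρ ^ (i + 2)) x} := by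
        rw [← Set.image_smul, Set.image_pair, hact, hact, ← Perm.mul_apply, ← zpow_add]
      rw [hset]
      obtain ⟨k, hk⟩ := hi2
      rcases Int.even_or_odd' k with ⟨l, hl | hl⟩
      · have e1 : (ρ ^ i) x = x := by
          have := (hzz i 0).mpr (by omega)
          simpa using this
        have e2 : (ρ ^ (i + 2)) x = (ρ ^ (2 : ℤ)) x := (hzz _ _).mpr (by omega)
        rw [e1, e2]
      · have e1 : (ρ ^ i) x = (ρ ^ (2 : ℤ)) x := (hzz _ _).mpr (by omega)
        have e2 : (ρ ^ (i + 2)) x = x := by
          have := (hzz (i + 2) 0).mpr (by omega)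
          simpa using this
        rw [e1, e2, Set.pair_comm]
    rcases hprim.isTrivialBlock_of_isBlock hB with h2 | h2
    · have h3 : x = (ρ ^ (2 : ℤ)) x := h2 (by simp) (by simp)
      have h4 := (hzz 0 2).mp (by simpa using h3)
      omega
    · have h3 : (ρ ^ (1 : ℤ)) x ∈ ({x, (ρ ^ (2 : ℤ)) x} : Set V) := by rw [h2]; trivial
      simp only [Set.mem_insert_iff, Set.mem_singleton_iff] at h3
      rcases h3 with h3 | h3
      · have h4 := (hzz 1 0).mp (by simpa using h3)
        omega
      · have h4 := (hzz 1 2).mp h3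
        omega
  · exact Or.inr h1

end Pool.Agent.P07.DGRCore
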