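import Mathlib.LinearAlgebra.Projectivization.PSL.PSL2
import Mathlib.Tactic

/-!
# Simplicity of PSL(n, F) for n at least 3

Helper file: for a field `F` and a finite index type `ι` with at least three elements,
`PSL ι F` is a simple group.
-/

namespace Pool.Agent.P07

open Matrix Matrix.SpecialLinearGroup
open scoped MatrixGroups LinearAlgebra.Projectivization commutatorElement

variable {ι F : Type*} [Field F] [DecidableEq ι] [Fintype ι]

/-- Decomposition of the diagonal matrix `diag(a, a⁻¹)` in positions `i, j` as a product of
six transvections. -/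
lemma diag2n_decompose {i j : ι} (hij : i ≠ j) (a : F) (ha : a ≠ 0) :
    diag2n hij a ha = SpecialLinearGroup.transvection hij a *
      SpecialLinearGroup.transvection hij.symm (- a⁻¹) *
      SpecialLinearGroup.transvection hij a *
      SpecialLinearGroup.transvection hij (-1) *
      SpecialLinearGroup.transvection hij.symm 1 *
      SpecialLinearGroup.transvection hij (-1) := by
  have key : (diag2n hij a ha).1 = (SpecialLinearGroup.transvection hij a).1 *
      (SpecialLinearGroup.transvection hij.symm (- a⁻¹)).1 *
      (SpecialLinearGroup.transvection hij a).1 *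
      (SpecialLinearGroup.transvection hij (-1)).1 *
      (SpecialLinearGroup.transvection hij.symm 1).1 *
      (SpecialLinearGroup.transvection hij (-1)).1 := by
    have h1 : (Matrix.diagonal (fun k ↦ if k = i then a else if k = j then a⁻¹ else 1) :
        Matrix ι ι F) = 1 + Matrix.single i i (a - 1) + Matrix.single j j (a⁻¹ - 1) := by
      ext k l
      by_cases hkl : k = l
      · subst hkl
        by_cases hki : k = i
        · subst hki
          simp [hij.symm]
        · by_cases hkj : k = j
          · subst hkj
            simp [hij, hij.symm]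
          · simp [hki, hkj, Ne.symm hki, Ne.symm hkj]
      · have h2 : ¬ (i = k ∧ i = l) := fun h => hkl (h.1.symm.trans h.2)
        have h3 : ¬ (j = k ∧ j = l) := fun h => hkl (h.1.symm.trans h.2)
        simp [hkl, h2, h3]
    simp only [transvection_coe, diag2n_coe]
    rw [h1]
    simp only [mul_add, add_mul, mul_one, one_mul, Matrix.single_mul_single_same,
      Matrix.single_mul_single_of_ne _ _ _ _ hij, Matrix.single_mul_single_of_ne _ _ _ _ hij.symm,
      mul_neg, neg_mul, neg_neg, mul_one, one_mul, add_zero]
    ext k l
    simp only [Matrix.add_apply, Matrix.single_apply]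
    have ha' : a * a⁻¹ = 1 := mul_inv_cancel₀ ha
    have ha'' : a⁻¹ * a = 1 := inv_mul_cancel₀ ha
    split_ifs <;> simp_all <;> ring
  exact Subtype.ext key

/-- Every predicate closed under products which holds for transvections holds on `SL`. -/
theorem transvection_induction [Nontrivial ι] (P : Matrix.SpecialLinearGroup ι F → Prop)
    (htransvec : ∀ (i j : ι) (h : i ≠ j) c, P (SpecialLinearGroup.transvection h c))
    (hmul : ∀ A B, P A → P B → P (A * B)) (A : Matrix.SpecialLinearGroup ι F) : P A := by
  refine diagonal_transvection_induction' P _ (fun i j hij c hc ↦ ?_) htransvec hmul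
  rw [diag2n_decompose hij c hc]
  refine hmul _ _ (hmul _ _ (hmul _ _ (hmul _ _ (hmul _ _ ?_ ?_) ?_) ?_) ?_) ?_
  all_goals exact htransvec _ _ _ _

/-- For distinct `i, j, k`, `[x_{ik}(c), x_{kj}(1)] = x_{ij}(c)`. -/
lemma commutator_transvection {i j k : ι} (hij : i ≠ j) (hik : i ≠ k) (hkj : k ≠ j) (c : F) :
    ⁅SpecialLinearGroup.transvection hik c, (SpecialLinearGroup.transvection hkj (1 : F) :
      Matrix.SpecialLinearGroup ι F)⁆ = SpecialLinearGroup.transvection hij c := by
  rw [commutatorElement_def, SpecialLinearGroup.transvection_inv,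
    SpecialLinearGroup.transvection_inv]
  have key : (SpecialLinearGroup.transvection hik c).1 *
      (SpecialLinearGroup.transvection hkj (1 : F)).1 *
      (SpecialLinearGroup.transvection hik (-c)).1 *
      (SpecialLinearGroup.transvection hkj (-1 : F)).1 =
      (SpecialLinearGroup.transvection hij c).1 := by
    simp only [transvection_coe]
    simp only [mul_add, add_mul, mul_one, one_mul, Matrix.single_mul_single_same,
      Matrix.single_mul_single_of_ne _ _ _ _ hij, Matrix.single_mul_single_of_ne _ _ _ _ hij.symm,
      Matrix.single_mul_single_of_ne _ _ _ _ hik.symm,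
      Matrix.single_mul_single_of_ne _ _ _ _ hkj.symm,
      mul_neg, neg_mul, neg_neg, mul_one, one_mul, add_zero]
    ext k l
    simp only [Matrix.add_apply, Matrix.single_apply]
    split_ifs <;> simp_all
  exact Subtype.ext key

lemma transvection_mem_commutator (h3 : 3 ≤ Fintype.card ι) {i j : ι} (hij : i ≠ j) (c : F) :
    SpecialLinearGroup.transvection hij c ∈ commutator (Matrix.SpecialLinearGroup ι F) := by
  obtain ⟨k, hk⟩ : ∃ k, k ∉ ({i, j} : Finset ι) := by
    by_contra hcon
    push Not at hcon
    have : Finset.univ ⊆ ({i, j} : Finset ι) := fun x _ => hcon x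
    have h := Finset.card_le_card this
    have h' := Finset.card_le_two (a := i) (b := j)
    rw [Finset.card_univ] at h
    omega
  simp only [Finset.mem_insert, Finset.mem_singleton, not_or] at hk
  rw [← commutator_transvection hij (Ne.symm hk.1) hk.2 c]
  exact Subgroup.commutator_mem_commutator (Subgroup.mem_top _) (Subgroup.mem_top _)

theorem SL_commutator_eq_top (h3 : 3 ≤ Fintype.card ι) :
    commutator (Matrix.SpecialLinearGroup ι F) = ⊤ := by
  have : Nontrivial ι := Fintype.one_lt_card_iff_nontrivial.mp (by omega)
  rw [eq_top_iff]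
  intro A _
  exact transvection_induction (fun A => A ∈ commutator (Matrix.SpecialLinearGroup ι F))
    (fun i j hij c => transvection_mem_commutator h3 hij c)
    (fun A B hA hB => Subgroup.mul_mem _ hA hB) A

/-- The join of all the line stabilisers is everything. -/
lemma iSup_lineStab_eq_top [Nontrivial ι] :
    (⨆ p : ℙ F (ι → F), lineStab p.submodule) = (⊤ : Subgroup (Matrix.SpecialLinearGroup ι F)) := by
  rw [eq_top_iff]
  intro A _
  refine transvection_induction (fun A => A ∈ (⨆ p : ℙ F (ι → F), lineStab p.submodule))
    (fun i j hij c => ?_) (fun A B hA hB => Subgroup.mul_mem _ hA hB) A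
  have h := SL2Gen.transvection_mem_lineStab (F := F) hij c
  rw [← Projectivization.submodule_mk (K := F) _ (Pi.single_ne_zero_iff.2 one_ne_zero)] at h
  exact Subgroup.mem_iSup_of_mem _ h

lemma iSup_iwasawaT_eq_top [Nontrivial ι] :
    iSup (PSL.iwasawaT (F := F) (ι := ι)) = ⊤ := by
  have step1 : iSup (PSL.iwasawaT (F := F) (ι := ι)) =
      Subgroup.map (QuotientGroup.mk' (Subgroup.center (Matrix.SpecialLinearGroup ι F)))
        (⨆ p : ℙ F (ι → F),
          Matrix.SpecialLinearGroup.lineStab (F := F) (ι := ι) p.submodule) := by
    rw [Subgroup.map_iSup]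
  rw [step1, iSup_lineStab_eq_top]
  exact Subgroup.map_top_of_surjective _ (QuotientGroup.mk'_surjective _)

/-- The Iwasawa structure on `PSL ι F`. -/
noncomputable def iwasawa [Nontrivial ι] :
    MulAction.IwasawaStructure (Matrix.ProjectiveSpecialLinearGroup ι F) (ℙ F (ι → F)) where
  T := PSL.iwasawaT
  is_comm p := by
    have hSL : IsMulCommutative (lineStab (F := F) (ι := ι) p.submodule) := by
      rw [← Projectivization.mk_rep p, Projectivization.submodule_mk]
      exact lineStab_isMulCommutative_of_span p.rep p.rep_nonzero
    exact Subgroup.map_isMulCommutative _ _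
  is_conj g p := by
    obtain ⟨g_SL, rfl⟩ := QuotientGroup.mk_surjective g
    rw [Matrix.ProjectiveSpecialLinearGroup.smul_proj_mk]
    change Subgroup.map _ _ = _
    rw [PSL.smul_submodule, Matrix.SpecialLinearGroup.lineStab_smul,
      PSL.iwasawaT_map_conj]
  is_generator := iSup_iwasawaT_eq_top

theorem PSL_commutator_eq_top (h3 : 3 ≤ Fintype.card ι) :
    commutator (Matrix.ProjectiveSpecialLinearGroup ι F) = ⊤ := by
  have : Group.IsPerfect (Matrix.SpecialLinearGroup ι F) := ⟨SL_commutator_eq_top h3⟩
  have : Group.IsPerfect (Matrix.ProjectiveSpecialLinearGroup ι F) := inferInstance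
  exact this.commutator_eq_top

/-- `PSL ι F` is simple when `ι` has at least three elements. -/
theorem PSL_simple (h3 : 3 ≤ Fintype.card ι) :
    IsSimpleGroup (Matrix.ProjectiveSpecialLinearGroup ι F) := by
  have : Nontrivial ι := Fintype.one_lt_card_iff_nontrivial.mp (by omega)
  have : Nontrivial (Matrix.ProjectiveSpecialLinearGroup ι F) := SL2Simple.PSL_nontrivial
  exact MulAction.IwasawaStructure.isSimpleGroup
    (PSL_commutator_eq_top h3) iwasawa inferInstance

end Pool.Agent.P07
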