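import Mathlib
import Pool.Agent.P07.PSLSimple

/-!
# Auxiliary facts on PSL(2m, 3) for the closure problem

* the action of linear automorphisms on short tuples of projective points,
* a linear automorphism acting on points like an element of `SL` has determinant a power,
* `PSL(2m, 3)` is not isomorphic to an alternating group for `m ≥ 4`.
-/

namespace Pool.Agent.P07

open scoped LinearAlgebra.Projectivization

section Tuples

variable {F V : Type*} [Field F] [AddCommGroup V] [Module F V] [FiniteDimensional F V]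

/-- Given fewer than `dim V` points of projective space and a unit `a`, some linear automorphism
of determinant `a` fixes all these points. -/
theorem exists_det_fix {k : ℕ} (t : Fin k → ℙ F V) (hk : k < Module.finrank F V) (a : Fˣ) :
    ∃ c : V ≃ₗ[F] V, LinearEquiv.det c = a ∧ ∀ i, c • t i = t i := by
  classical
  set W : Submodule F V := Submodule.span F (Set.range fun i => (t i).rep) with hW
  have hWlt : W < ⊤ := by
    refine Submodule.lt_top_of_finrank_lt_finrank ?_
    have h1 : Module.finrank F W ≤ Fintype.card (Fin k) := finrank_range_le_card _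
    rw [Fintype.card_fin] at h1
    omega
  obtain ⟨f, hf0, hfW⟩ := Submodule.exists_le_ker_of_lt_top W hWlt
  obtain ⟨v, hv⟩ : ∃ v, f v = 1 := by
    obtain ⟨w, hw⟩ : ∃ w, f w ≠ 0 := by
      by_contra hcon
      push Not at hcon
      exact hf0 (LinearMap.ext hcon)
    exact ⟨(f w)⁻¹ • w, by simp [hw]⟩
  have hu : 1 + f ((a.val - 1) • v) ≠ 0 := by
    simp [hv]
  refine ⟨LinearEquiv.dilatransvection (f := f) (v := (a.val - 1) • v) (by simp [hv]), ?_, ?_⟩
  · rw [← Units.val_inj, LinearEquiv.coe_det]
    simp [LinearMap.transvection.det, hv]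
  · intro i
    have hfi : f (t i).rep = 0 := by
      have : (t i).rep ∈ W := Submodule.subset_span ⟨i, rfl⟩
      exact LinearMap.mem_ker.mp (hfW this)
    rw [← Projectivization.mk_rep (t i), Projectivization.smul_mk,
      Projectivization.mk_eq_mk_iff]
    refine ⟨1, ?_⟩
    rw [one_smul, LinearEquiv.smul_def, ← LinearEquiv.coe_coe,
      LinearEquiv.dilatransvection.coe_toLinearMap, LinearMap.transvection.apply, hfi]
    simp

/-- A linear automorphism fixing all points of projective space has determinant a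
`dim V`-th power. -/
theorem det_of_fix_all (c : V ≃ₗ[F] V) (hc : ∀ p : ℙ F V, c • p = p) :
    ∃ a : F, (LinearEquiv.det c : F) = a ^ Module.finrank F V := by
  obtain ⟨a, ha⟩ := (c : V →ₗ[F] V).exists_eq_smul_id_of_forall_notLinearIndependent
    fun v ↦ by
      by_cases hv : v = 0
      · simp [hv, linearIndependent_fin2]
      · have h := hc (.mk F v hv)
        rw [Projectivization.smul_mk, Projectivization.mk_eq_mk_iff'] at h
        rw [LinearIndependent.pair_iff' hv]
        push Not
        exact h
  refine ⟨a, ?_⟩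
  rw [LinearEquiv.coe_det, ha, LinearMap.det_smul]
  simp

end Tuples

section PSL

variable {ι : Type*} [Fintype ι] [DecidableEq ι] {F : Type*} [Field F]

/-- Fewer than `n` points: the permutation of projective space induced by a linear automorphism
agrees on these points with an element of `PSL`. -/
theorem exists_PSL_smul_eq {k : ℕ} (hk : k < Fintype.card ι) (g : (ι → F) ≃ₗ[F] (ι → F))
    (t : Fin k → ℙ F (ι → F)) :
    ∃ s : Matrix.ProjectiveSpecialLinearGroup ι F, ∀ i, s • t i = g • t i := by
  obtain ⟨c, hc, hct⟩ := exists_det_fix t (by simpa using hk) (LinearEquiv.det g)⁻¹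
  have hdet : LinearEquiv.det (g * c) = 1 := by rw [map_mul, hc]; simp
  set s0 : SpecialLinearGroup F (ι → F) := ⟨g * c, hdet⟩ with hs0
  refine ⟨QuotientGroup.mk (Matrix.SpecialLinearGroup.toLin'_equiv.symm s0), fun i => ?_⟩
  rw [Matrix.ProjectiveSpecialLinearGroup.smul_proj_mk,
    Projectivization.matrixSpecialLinearGroup_smul_def, MulEquiv.apply_symm_apply,
    Projectivization.specialLinearGroup_smul_def]
  have : s0.toLinearEquiv = g * c := rfl
  rw [this, mul_smul, hct]

/-- If a linear automorphism acts on projective space like an element of `PSL` then its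
determinant is a `n`-th power. -/
theorem det_pow_of_smul_eq (g : (ι → F) ≃ₗ[F] (ι → F))
    (s : Matrix.ProjectiveSpecialLinearGroup ι F)
    (hs : ∀ p : ℙ F (ι → F), s • p = g • p) :
    ∃ a : F, (LinearEquiv.det g : F) = a ^ Fintype.card ι := by
  obtain ⟨s, rfl⟩ := QuotientGroup.mk_surjective s
  set s1 : SpecialLinearGroup F (ι → F) := Matrix.SpecialLinearGroup.toLin'_equiv s with hs1
  have h1 : ∀ p : ℙ F (ι → F), (s1.toLinearEquiv⁻¹ * g) • p = p := by
    intro p
    rw [mul_smul, ← hs p, Matrix.ProjectiveSpecialLinearGroup.smul_proj_mk,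
      Projectivization.matrixSpecialLinearGroup_smul_def,
      Projectivization.specialLinearGroup_smul_def, inv_smul_smul]
  obtain ⟨a, ha⟩ := det_of_fix_all _ h1
  refine ⟨a, ?_⟩
  have h2 : LinearEquiv.det s1.toLinearEquiv = 1 := s1.2
  rw [map_mul, map_inv, h2] at ha
  simpa using ha

end PSL

section Order

open Matrix

/-- The unipotent block subgroup, as a homomorphism. -/
def blockHom (m : ℕ) (F : Type*) [Field F] :
    Multiplicative (Matrix (Fin m) (Fin m) F) →*
      Matrix.SpecialLinearGroup (Fin m ⊕ Fin m) F where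
  toFun A := ⟨Matrix.fromBlocks 1 A.toAdd 0 1, by simp⟩
  map_one' := by
    apply Subtype.ext
    simp [Matrix.fromBlocks_one]
  map_mul' A B := by
    have key : Matrix.fromBlocks (1 : Matrix (Fin m) (Fin m) F) (A * B).toAdd 0
        (1 : Matrix (Fin m) (Fin m) F) =
        Matrix.fromBlocks (1 : Matrix (Fin m) (Fin m) F) A.toAdd 0 1 *
        Matrix.fromBlocks (1 : Matrix (Fin m) (Fin m) F) B.toAdd 0 1 := by
      rw [Matrix.fromBlocks_multiply]
      simp [add_comm]
    exact Subtype.ext key

theorem card_PSL_lower (m : ℕ) :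
    3 ^ (m * m) ∣ Nat.card (Matrix.ProjectiveSpecialLinearGroup (Fin m ⊕ Fin m) (ZMod 3)) := by
  have h := Subgroup.card_dvd_of_injective
    ((QuotientGroup.mk' (Subgroup.center
      (Matrix.SpecialLinearGroup (Fin m ⊕ Fin m) (ZMod 3)))).comp (blockHom m (ZMod 3))) (by
    rw [injective_iff_map_eq_one]
    intro A hA
    rw [MonoidHom.comp_apply, QuotientGroup.mk'_apply, QuotientGroup.eq_one_iff,
      Matrix.SpecialLinearGroup.mem_center_iff] at hA
    obtain ⟨r, _, hr⟩ := hA
    apply Multiplicative.toAdd.injective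
    ext i j
    have h1 := congrFun (congrFun hr (Sum.inl i)) (Sum.inr j)
    have h2 : ((blockHom m (ZMod 3) A : Matrix.SpecialLinearGroup (Fin m ⊕ Fin m) (ZMod 3)) :
        Matrix (Fin m ⊕ Fin m) (Fin m ⊕ Fin m) (ZMod 3)) =
        Matrix.fromBlocks 1 A.toAdd 0 1 := rfl
    rw [h2] at h1
    simpa using h1.symm)
  have hc : Nat.card (Multiplicative (Matrix (Fin m) (Fin m) (ZMod 3))) = 3 ^ (m * m) := by
    simp [Matrix, Nat.card_eq_fintype_card, ← pow_mul]
  rwa [hc] at h

theorem card_PSL_upper (m : ℕ) :
    Nat.card (Matrix.ProjectiveSpecialLinearGroup (Fin m ⊕ Fin m) (ZMod 3)) ≤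
      9 ^ (2 * (m * m)) := by
  have h1 : Nat.card (Matrix.ProjectiveSpecialLinearGroup (Fin m ⊕ Fin m) (ZMod 3)) ≤
      Nat.card (Matrix.SpecialLinearGroup (Fin m ⊕ Fin m) (ZMod 3)) :=
    Nat.card_le_card_of_surjective _ QuotientGroup.mk_surjective
  have h2 : Nat.card (Matrix.SpecialLinearGroup (Fin m ⊕ Fin m) (ZMod 3)) ≤
      Nat.card (Matrix (Fin m ⊕ Fin m) (Fin m ⊕ Fin m) (ZMod 3)) :=
    Nat.card_le_card_of_injective _ Subtype.val_injective
  have hc : Nat.card (Matrix (Fin m ⊕ Fin m) (Fin m ⊕ Fin m) (ZMod 3)) =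
      9 ^ (2 * (m * m)) := by
    have h9 : (9 : ℕ) = 3 ^ 2 := by norm_num
    have h3 : Nat.card (Matrix (Fin m ⊕ Fin m) (Fin m ⊕ Fin m) (ZMod 3)) =
        (3 ^ (m + m)) ^ (m + m) := by
      simp [Matrix, Nat.card_eq_fintype_card]
    rw [h3, h9, ← pow_mul, ← pow_mul, show (m + m) * (m + m) = 2 * (2 * (m * m)) by ring]
  omega

theorem two_mul_pow_lt_factorial {M : ℕ} (hM : 24 ≤ M) : 2 * 9 ^ M < M.factorial := by
  induction M, hM using Nat.le_induction with
  | base => decide +kernel
  | succ n hn ih =>
    rw [Nat.factorial_succ, pow_succ]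
    nlinarith [pow_pos (show (0 : ℕ) < 9 by norm_num) n, Nat.factorial_pos n]

/-- `PSL(2m, 3)` is not isomorphic to any alternating group when `m ≥ 4`. -/
theorem PSL_not_alternating {m : ℕ} (hm : 4 ≤ m) (N : ℕ) :
    IsEmpty (Matrix.ProjectiveSpecialLinearGroup (Fin m ⊕ Fin m) (ZMod 3) ≃*
      alternatingGroup (Fin N)) := by
  refine ⟨fun e => ?_⟩
  have hcard := Nat.card_congr e.toEquiv
  have hlow := card_PSL_lower m
  have hup := card_PSL_upper m
  rw [hcard] at hlow hup
  have hdvd : 3 ^ (m * m) ∣ N.factorial := by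
    refine hlow.trans ?_
    have := Subgroup.card_subgroup_dvd_card (alternatingGroup (Fin N))
    rwa [Nat.card_perm, Nat.card_eq_fintype_card (α := Fin N), Fintype.card_fin] at this
  have : Fact (Nat.Prime 3) := ⟨Nat.prime_three⟩
  have hval : m * m ≤ padicValNat 3 N.factorial :=
    (padicValNat_dvd_iff_le (Nat.factorial_ne_zero N)).mp hdvd
  have hleg := sub_one_mul_padicValNat_factorial (p := 3) N
  have hN : 2 * (m * m) ≤ N := by omega
  have hmm : 16 ≤ m * m := by nlinarith
  have hnt : Nontrivial (Fin N) := Fin.nontrivial_iff_two_le.mpr (by omega)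
  have h2 := two_mul_nat_card_alternatingGroup (α := Fin N)
  rw [Nat.card_perm, Nat.card_eq_fintype_card (α := Fin N), Fintype.card_fin] at h2
  have h3 := two_mul_pow_lt_factorial (M := 2 * (m * m)) (by omega)
  have h4 := Nat.factorial_le hN
  omega

end Order

end Pool.Agent.P07
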