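import Mathlib

/-!
# The Squier complex of a finite semigroup presentation and its diagram groups

Letters are natural numbers; the alphabet of size `n` is `{0, …, n-1}`.
-/

open CategoryTheory

namespace Pool.Agent.P07.Squier

/-- `x` is a non-empty word over the alphabet `{0, …, n-1}`. -/
def IsWord (n : ℕ) (x : List ℕ) : Prop := x ≠ [] ∧ ∀ a ∈ x, a < n

/-- `R` is a finite list of relations between non-empty words over `{0, …, n-1}`, that is,
`(n, R)` is a finite semigroup presentation. -/
def IsPresentation (n : ℕ) (R : List (List ℕ × List ℕ)) : Prop :=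
  ∀ r ∈ R, IsWord n r.1 ∧ IsWord n r.2

/-- The vertices of the Squier complex: the non-empty words. -/
structure Vertex (n : ℕ) (R : List (List ℕ × List ℕ)) where
  word : List ℕ
  isWord : IsWord n word

/-- The edges of the Squier complex from `x` to `y`: the triples `(a, u → v, b)` with
`u = v` or `v = u` a relation, `x = aub` and `y = avb`. -/
structure Edge {n : ℕ} {R : List (List ℕ × List ℕ)} (x y : Vertex n R) where
  a : List ℕ
  u : List ℕ
  v : List ℕ
  b : List ℕ
  rel : (u, v) ∈ R ∨ (v, u) ∈ R
  src : x.word = a ++ u ++ b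
  tgt : y.word = a ++ v ++ b

variable {n : ℕ} {R : List (List ℕ × List ℕ)}

/-- The inverse edge `(a, v → u, b)` of the edge `(a, u → v, b)`. -/
def Edge.inv {x y : Vertex n R} (e : Edge x y) : Edge y x where
  a := e.a
  u := e.v
  v := e.u
  b := e.b
  rel := e.rel.symm
  src := e.tgt
  tgt := e.src

instance : Quiver (Vertex n R) := ⟨fun x y => Edge x y⟩

/-- The edge `e` as a one-edge path. -/
def Edge.path {x y : Vertex n R} (e : Edge x y) :
    (Paths.of (Vertex n R)).obj x ⟶ (Paths.of (Vertex n R)).obj y :=
  (Paths.of (Vertex n R)).map e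

/-- The elementary homotopies of edge paths of the Squier complex: an edge followed by its inverse
can be cancelled, and for each square the two paths around it are identified. -/
inductive Step : ∀ ⦃x y : Paths (Vertex n R)⦄, (x ⟶ y) → (x ⟶ y) → Prop
  | cancel {x y : Vertex n R} (e : Edge x y) : Step (e.path ≫ e.inv.path) (𝟙 _)
  | square {x y z t : Vertex n R} (a u v b u' v' c : List ℕ)
      (h : (u, v) ∈ R ∨ (v, u) ∈ R) (h' : (u', v') ∈ R ∨ (v', u') ∈ R)
      (hx : x.word = a ++ u ++ b ++ u' ++ c) (hy : y.word = a ++ v ++ b ++ u' ++ c)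
      (hz : z.word = a ++ v ++ b ++ v' ++ c) (ht : t.word = a ++ u ++ b ++ v' ++ c) :
      Step
        ((⟨a, u, v, b ++ u' ++ c, h, by simp [hx], by simp [hy]⟩ : Edge x y).path ≫
          (⟨a ++ v ++ b, u', v', c, h', by simp [hy], by simp [hz]⟩ : Edge y z).path)
        ((⟨a ++ u ++ b, u', v', c, h', by simp [hx], by simp [ht]⟩ : Edge x t).path ≫
          (⟨a, u, v, b ++ v' ++ c, h, by simp [ht], by simp [hz]⟩ : Edge t z).path)

/-- The family of the elementary homotopies. -/
def stepRel (n : ℕ) (R : List (List ℕ × List ℕ)) : HomRel (Paths (Vertex n R)) :=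
  fun _ _ p q => Step p q

/-- The fundamental groupoid of the Squier complex: edge paths modulo homotopy. -/
abbrev Grpd (n : ℕ) (R : List (List ℕ × List ℕ)) : Type :=
  CategoryTheory.Quotient (stepRel n R)

/-- The word `w` as an object of the fundamental groupoid. -/
abbrev base {n : ℕ} {R : List (List ℕ × List ℕ)} (w : Vertex n R) : Grpd n R :=
  (CategoryTheory.Quotient.functor (stepRel n R)).obj ((Paths.of (Vertex n R)).obj w)

/-- The diagram group `D(P, w)`: the group of homotopy classes of closed edge paths at `w`. -/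
abbrev D {n : ℕ} {R : List (List ℕ × List ℕ)} (w : Vertex n R) : Type := Aut (base w)

/-- The rank of the abelianisation of a group `G`: the dimension over `ℚ` of
`G/[G,G] ⊗ ℚ`, in `{0, 1, 2, …} ∪ {∞}`. -/
noncomputable def rankAb (G : Type) [Group G] : ℕ∞ :=
  Cardinal.toENat (Module.rank ℚ (TensorProduct ℤ ℚ (Additive (Abelianization G))))

end Pool.Agent.P07.Squier
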