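import Mathlib

/-!
# A Turing machine simulation in which every step makes the configuration longer

Configurations are words `lend … s … rend` with one state letter `s` and trash letters which are
ignored; every step rewrites two letters into three. Every `TM0` machine is simulated.
-/

namespace Pool.Agent.P07.Trash

open Turing StateTransition Relation

/-- The letters of the tape words. -/
inductive NS (Γ : Type) : Type
  | lend | rend | trash
  | sym (a : Γ)
  deriving DecidableEq, Fintype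

/-- The state letters: `R q` scans to the right, `L q` moves to the left, `h i` are halting. -/
inductive St (Λ : Type) : Type
  | R (q : Λ)
  | L (q : Λ)
  | h (i : Fin 3)
  deriving DecidableEq, Fintype

/-- A configuration: the letters to the left of the state letter (nearest first), the state
letter and the letters to the right of it (nearest first). -/
@[ext]
structure Cf (Γ Λ : Type) where
  l : List (NS Γ)
  s : St Λ
  r : List (NS Γ)

variable {Γ Λ : Type}

/-- Put a configuration into a context. -/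
def Cf.ext' (c : Cf Γ Λ) (L R : List (NS Γ)) : Cf Γ Λ := ⟨c.l ++ L, c.s, c.r ++ R⟩

/-- The length of the word of a configuration. -/
def Cf.len (c : Cf Γ Λ) : ℕ := c.l.length + 1 + c.r.length

/-- Left-hand sides of the rules. -/
def lhs : Bool × Λ × NS Γ → Cf Γ Λ
  | (true, q, x) => ⟨[], .R q, [x]⟩
  | (false, q, x) => ⟨[x], .L q, []⟩

variable [Inhabited Γ] [Inhabited Λ] (M : TM0.Machine Γ Λ)

/-- Right-hand sides of the rules. -/
def rhs : Bool × Λ × NS Γ → Cf Γ Λ
  | (true, q, .sym a) =>
    match M q a with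
    | none => ⟨[], .h 0, [.sym a, .trash]⟩
    | some (q', TM0.Stmt.move Dir.right) => ⟨[.trash, .sym a], .R q', []⟩
    | some (q', TM0.Stmt.move Dir.left) => ⟨[], .L q', [.sym a, .trash]⟩
    | some (q', TM0.Stmt.write b) => ⟨[], .R q', [.sym b, .trash]⟩
  | (true, q, .trash) => ⟨[.trash, .trash], .R q, []⟩
  | (true, q, .rend) => ⟨[], .R q, [.sym default, .rend]⟩
  | (true, q, .lend) => ⟨[], .R q, [.lend, .trash]⟩
  | (false, q, .sym b) => ⟨[], .R q, [.sym b, .trash]⟩
  | (false, q, .trash) => ⟨[], .L q, [.trash, .trash]⟩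
  | (false, q, .lend) => ⟨[.sym default, .lend], .L q, []⟩
  | (false, q, .rend) => ⟨[.trash, .rend], .L q, []⟩

/-- One step of the rewriting. -/
def F : Cf Γ Λ → Option (Cf Γ Λ)
  | ⟨L, .R q, x :: R⟩ => some ((rhs M (true, q, x)).ext' L R)
  | ⟨x :: L, .L q, R⟩ => some ((rhs M (false, q, x)).ext' L R)
  | _ => none

theorem F_lhs (i : Bool × Λ × NS Γ) (L R : List (NS Γ)) :
    F M ((lhs i).ext' L R) = some ((rhs M i).ext' L R) := by
  rcases i with ⟨_ | _, q, x⟩ <;> rfl

theorem F_h (i : Fin 3) (L R : List (NS Γ)) : F M ⟨L, .h i, R⟩ = none := by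
  rfl

omit [Inhabited Γ] [Inhabited Λ] in
theorem lhs_inj (i j : Bool × Λ × NS Γ) (L R L' R' : List (NS Γ))
    (h : (lhs i).ext' L R = (lhs j).ext' L' R') : i = j ∧ L = L' ∧ R = R' := by
  rcases i with ⟨_ | _, q, x⟩ <;> rcases j with ⟨_ | _, q', x'⟩ <;>
    simp_all [lhs, Cf.ext']

theorem len_rhs (i : Bool × Λ × NS Γ) : (rhs M i).len = (lhs i).len + 1 := by
  rcases i with ⟨_ | _, q, x⟩ <;> rcases x with _ | _ | _ | a <;> simp [rhs, lhs, Cf.len]
  split <;> simp

/-- `Rep e w X`: the word `w` ends with `e` and represents the half-tape `X`. -/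
inductive Rep (e : NS Γ) : List (NS Γ) → ListBlank Γ → Prop
  | nil : Rep e [e] (ListBlank.mk [])
  | trash {l X} : Rep e l X → Rep e (.trash :: l) X
  | sym {l X} (a : Γ) : Rep e l X → Rep e (.sym a :: l) (X.cons a)

/-- The configuration `c` represents the machine configuration. -/
def tr (b : TM0.Cfg Γ Λ) (c : Cf Γ Λ) : Prop :=
  ∃ L R X Y, c = ⟨L, .R b.q, R⟩ ∧ Rep .lend L X ∧ Rep .rend R Y ∧ b.Tape = Tape.mk' X Y

theorem norm (q : Λ) {R : List (NS Γ)} {Y : ListBlank Γ} (hR : Rep .rend R Y) :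
    ∀ {L : List (NS Γ)} {X : ListBlank Γ}, Rep .lend L X →
      ∃ L' R', Reaches (F M) ⟨L, .R q, R⟩ ⟨L', .R q, .sym Y.head :: R'⟩ ∧
        Rep .lend L' X ∧ Rep .rend R' Y.tail := by
  induction hR with
  | nil =>
    intro L X hL
    exact ⟨L, [.rend], ReflTransGen.single rfl, hL, Rep.nil⟩
  | trash hR ih =>
    intro L X hL
    obtain ⟨L', R', h1, h2, h3⟩ := ih hL.trash.trash
    exact ⟨L', R', ReflTransGen.head rfl h1, h2, h3⟩
  | @sym l Y a hR ih =>
    intro L X hL
    refine ⟨L, l, ?_, hL, ?_⟩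
    · rw [ListBlank.head_cons]
      exact ReflTransGen.refl
    · rw [ListBlank.tail_cons]
      exact hR

theorem left (q : Λ) {L : List (NS Γ)} {X : ListBlank Γ} (hL : Rep .lend L X) :
    ∀ {R : List (NS Γ)} {Y : ListBlank Γ}, Rep .rend R Y →
      ∃ L' R', Reaches (F M) ⟨L, .L q, R⟩ ⟨L', .R q, R'⟩ ∧
        Rep .lend L' X.tail ∧ Rep .rend R' (Y.cons X.head) := by
  induction hL with
  | nil =>
    intro R Y hR
    refine ⟨[.lend], .sym default :: .trash :: R, ?_, Rep.nil, hR.trash.sym _⟩
    exact ReflTransGen.head (b := ⟨[.sym default, .lend], .L q, R⟩) rfl (ReflTransGen.single rfl)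
  | trash hL ih =>
    intro R Y hR
    obtain ⟨L', R', h1, h2, h3⟩ := ih hR.trash.trash
    exact ⟨L', R', ReflTransGen.head rfl h1, h2, h3⟩
  | @sym l X a hL ih =>
    intro R Y hR
    refine ⟨l, .sym a :: .trash :: R, ReflTransGen.single rfl, ?_, ?_⟩
    · rw [ListBlank.tail_cons]
      exact hL
    · rw [ListBlank.head_cons]
      exact hR.trash.sym _

theorem sim (b : TM0.Cfg Γ Λ) (c : Cf Γ Λ) (h : tr b c) :
    match TM0.step M b with
    | none => ∃ L R, Reaches (F M) c ⟨L, .h 0, R⟩
    | some b' => ∃ c', Reaches₁ (F M) c c' ∧ tr b' c' := by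
  obtain ⟨L, R, X, Y, rfl, hL, hR, hT⟩ := h
  obtain ⟨q, T⟩ := b
  dsimp only at hT ⊢
  subst hT
  obtain ⟨L', R', h1, h2, h3⟩ := norm M q hR hL
  rcases e : M q Y.head with - | ⟨q', s⟩
  · simp only [TM0.step, Tape.mk'_head, e, Option.map_none]
    refine ⟨L', .sym Y.head :: .trash :: R', h1.tail ?_⟩
    simp [F, rhs, e, Cf.ext']
  · simp only [TM0.step, Tape.mk'_head, e, Option.map_some]
    rcases s with (_ | _) | a
    · -- left
      obtain ⟨L2, R2, h4, h5, h6⟩ := left M q' h2 (R := .sym Y.head :: .trash :: R')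
        (Y := Y.tail.cons Y.head) (h3.trash.sym _)
      refine ⟨⟨L2, .R q', R2⟩, ?_, L2, R2, _, _, rfl, h5, h6, ?_⟩
      · refine TransGen.trans_left ?_ h4
        refine TransGen.tail' h1 ?_
        simp [F, rhs, e, Cf.ext']
      · simp
    · -- right
      refine ⟨⟨.trash :: .sym Y.head :: L', .R q', R'⟩, ?_, _, _, _, _, rfl,
        (h2.sym Y.head).trash, h3, ?_⟩
      · refine TransGen.tail' h1 ?_
        simp [F, rhs, e, Cf.ext']
      · simp
    · -- write
      refine ⟨⟨L', .R q', .sym a :: .trash :: R'⟩, ?_, _, _, _, _, rfl,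
        h2, h3.trash.sym a, ?_⟩
      · refine TransGen.tail' h1 ?_
        simp [F, rhs, e, Cf.ext']
      · simp

theorem halts_reaches (b : TM0.Cfg Γ Λ) (c : Cf Γ Λ) (h : tr b c)
    (hd : (eval (TM0.step M) b).Dom) : ∃ L R, Reaches (F M) c ⟨L, .h 0, R⟩ := by
  have hm : (eval (TM0.step M) b).get hd ∈ eval (TM0.step M) b := Part.get_mem hd
  obtain ⟨h1, h2⟩ := mem_eval.1 hm
  generalize (eval (TM0.step M) b).get hd = b' at h1 h2
  clear hm hd
  revert c
  refine ReflTransGen.head_induction_on h1 ?_ ?_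
  · intro c h
    have := sim M b' c h
    rw [h2] at this
    exact this
  · intro b₁ b₂ h12 _ ih c h
    have := sim M b₁ c h
    rw [show TM0.step M b₁ = some b₂ from h12] at this
    obtain ⟨c', hc', htr⟩ := this
    obtain ⟨L, R, h3⟩ := ih c' htr
    exact ⟨L, R, hc'.to_reflTransGen.trans h3⟩

theorem dom_of_dom (b : TM0.Cfg Γ Λ) (c : Cf Γ Λ) (h : tr b c)
    (hd : (eval (F M) c).Dom) : (eval (TM0.step M) b).Dom := by
  have hm : (eval (F M) c).get hd ∈ eval (F M) c := Part.get_mem hd
  generalize (eval (F M) c).get hd = c₀ at hm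
  have key : ∀ c' b, Reaches (F M) c c' → tr b c' → (eval (TM0.step M) b).Dom := by
    clear h hd b
    refine evalInduction (C := fun c => ∀ c' b, Reaches (F M) c c' → tr b c' →
      (eval (TM0.step M) b).Dom) hm ?_
    intro a _ ih c' b hac htr
    rcases ReflTransGen.cases_head hac with rfl | ⟨a', haa', ha'c'⟩
    · have hs := sim M b a htr
      rcases e : TM0.step M b with - | b'
      · have : b ∈ eval (TM0.step M) b := mem_eval.2 ⟨ReflTransGen.refl, e⟩
        exact Part.dom_iff_mem.2 ⟨b, this⟩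
      · rw [e] at hs
        obtain ⟨c', h1, h2⟩ := hs
        obtain ⟨a', haa', ha'c'⟩ := TransGen.head'_iff.1 h1
        have := ih a' haa' c' b' ha'c' h2
        rw [reaches_eval (a := b) (b := b') (ReflTransGen.single e)]
        exact this
    · exact ih a' haa' c' b ha'c' htr
  exact key c b ReflTransGen.refl h

theorem rep_list (l : List Γ) : Rep .rend (l.map NS.sym ++ [.rend]) (ListBlank.mk l) := by
  induction l with
  | nil => exact Rep.nil
  | cons a l ih => exact ih.sym a

/-- The initial configuration. -/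
def initCf (l : List Γ) : Cf Γ Λ := ⟨[.lend], .R default, l.map NS.sym ++ [.rend]⟩

theorem tr_init (l : List Γ) : tr (TM0.init l : TM0.Cfg Γ Λ) (initCf l) :=
  ⟨_, _, _, _, rfl, Rep.nil, rep_list l, rfl⟩

end Pool.Agent.P07.Trash
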