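import Pool.Agent.P07.SquierTrivial
import Pool.Agent.P07.TrashMachine

/-!
# Diagram groups of the presentation of a Turing machine
-/

open CategoryTheory

namespace Pool.Agent.P07.Squier

open Turing StateTransition Relation Pool.Agent.P07.Trash

/-- An encoding of the letters by natural numbers below `n`. -/
structure Enc (Γ Λ : Type) (n : ℕ) where
  eN : NS Γ → ℕ
  eS : St Λ → ℕ
  injN : Function.Injective eN
  injS : Function.Injective eS
  disj : ∀ x s, eN x ≠ eS s
  ltN : ∀ x, eN x < n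
  ltS : ∀ s, eS s < n

variable {Γ Λ : Type} {n : ℕ} (E : Enc Γ Λ n)

/-- The word of a configuration. -/
def word (c : Cf Γ Λ) : List ℕ := (c.l.map E.eN).reverse ++ E.eS c.s :: c.r.map E.eN

theorem word_length (c : Cf Γ Λ) : (word E c).length = c.len := by
  simp [word, Cf.len]
  omega

theorem word_ext (c : Cf Γ Λ) (L R : List (NS Γ)) :
    word E (c.ext' L R) = (L.map E.eN).reverse ++ word E c ++ R.map E.eN := by
  simp [word, Cf.ext']

theorem isWord_word (c : Cf Γ Λ) : IsWord n (word E c) := by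
  refine ⟨by simp [word], ?_⟩
  intro a ha
  simp only [word, List.mem_append, List.mem_reverse, List.mem_map, List.mem_cons] at ha
  rcases ha with ⟨x, _, rfl⟩ | rfl | ⟨x, _, rfl⟩
  · exact E.ltN x
  · exact E.ltS _
  · exact E.ltN x

/-- A word splits uniquely around a separating letter. -/
theorem split_unique (P : ℕ → Prop) {X Y X' Y' : List ℕ} {s s' : ℕ}
    (hX : ∀ a ∈ X, P a) (hX' : ∀ a ∈ X', P a)
    (hs : ¬ P s) (hs' : ¬ P s') (h : X ++ s :: Y' = X' ++ s' :: Y) :
    X = X' ∧ s = s' ∧ Y' = Y := by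
  induction X generalizing X' with
  | nil =>
    cases X' with
    | nil => simpa using h
    | cons b X' =>
      simp only [List.nil_append, List.cons_append, List.cons.injEq] at h
      exact absurd (h.1 ▸ hX' b (by simp)) hs
  | cons a X ih =>
    cases X' with
    | nil =>
      simp only [List.nil_append, List.cons_append, List.cons.injEq] at h
      exact absurd (h.1 ▸ hX a (by simp)) hs'
    | cons b X' =>
      simp only [List.cons_append, List.cons.injEq] at h
      obtain ⟨h1, h2⟩ := h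
      have := ih (fun a ha => hX a (by simp [ha])) (X' := X') (fun a ha => hX' a (by simp [ha])) h2
      refine ⟨by rw [h1, this.1], this.2⟩

theorem word_inj {c d : Cf Γ Λ} (h : word E c = word E d) : c = d := by
  have := split_unique (fun a => ∃ x, E.eN x = a)
    (by intro a ha; simp only [List.mem_reverse, List.mem_map] at ha; obtain ⟨x, _, hx⟩ := ha; exact ⟨x, hx⟩)
    (by intro a ha; simp only [List.mem_reverse, List.mem_map] at ha; obtain ⟨x, _, hx⟩ := ha; exact ⟨x, hx⟩)
    (by rintro ⟨x, hx⟩; exact E.disj _ _ hx) (by rintro ⟨x, hx⟩; exact E.disj _ _ hx) h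
  obtain ⟨h1, h2, h3⟩ := this
  rw [List.reverse_inj] at h1
  exact Cf.ext (List.map_injective_iff.2 E.injN h1) (E.injS h2) (List.map_injective_iff.2 E.injN h3)

/-- The occurrences of the word of a configuration in the word of another one. -/
theorem decomp {a b : List ℕ} {c d : Cf Γ Λ} (h : word E c = a ++ word E d ++ b) :
    ∃ L R : List (NS Γ), a = (L.map E.eN).reverse ∧ b = R.map E.eN ∧ c = d.ext' L R := by
  have hP : ∀ (l : List (NS Γ)), ∀ a ∈ l.map E.eN, ∃ x, E.eN x = a := by
    intro l a ha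
    simp only [List.mem_map] at ha
    obtain ⟨x, _, hx⟩ := ha
    exact ⟨x, hx⟩
  have h' : (c.l.map E.eN).reverse ++ E.eS c.s :: c.r.map E.eN =
      (a ++ (d.l.map E.eN).reverse) ++ E.eS d.s :: (d.r.map E.eN ++ b) := by
    rw [show (c.l.map E.eN).reverse ++ E.eS c.s :: c.r.map E.eN = word E c from rfl, h]
    simp [word]
  have hcount : ∀ x ∈ a ++ (d.l.map E.eN).reverse, ∃ y, E.eN y = x := by
    rcases List.append_eq_append_iff.1 h' with ⟨t, ht1, ht2⟩ | ⟨t, ht1, ht2⟩
    · cases t with
      | nil =>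
        rw [ht1, List.append_nil]
        intro x hx
        rw [List.mem_reverse] at hx
        exact hP _ _ hx
      | cons t0 t =>
        simp only [List.cons_append, List.cons.injEq] at ht2
        obtain ⟨_, ht2⟩ := ht2
        exfalso
        have : E.eS d.s ∈ c.r.map E.eN := by rw [ht2]; simp
        obtain ⟨y, hy⟩ := hP _ _ this
        exact E.disj _ _ hy
    · intro x hx
      have : x ∈ (c.l.map E.eN).reverse := by rw [ht1]; simp only [List.mem_append] at hx ⊢; tauto
      rw [List.mem_reverse] at this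
      exact hP _ _ this
  obtain ⟨h1, h2, h3⟩ := split_unique (fun a => ∃ x, E.eN x = a) hcount
    (by intro a ha; rw [List.mem_reverse] at ha; exact hP _ _ ha)
    (by rintro ⟨x, hx⟩; exact E.disj _ _ hx) (by rintro ⟨x, hx⟩; exact E.disj _ _ hx) h'.symm
  have h1' : c.l.map E.eN = d.l.map E.eN ++ a.reverse := by
    have := congrArg List.reverse h1
    simpa using this.symm
  obtain ⟨l1, L, hl, hl1, hL⟩ := List.map_eq_append_iff.1 h1'
  obtain ⟨r1, R, hr, hr1, hR⟩ := List.map_eq_append_iff.1 h3.symm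
  have hl1' := List.map_injective_iff.2 E.injN hl1
  have hr1' := List.map_injective_iff.2 E.injN hr1
  refine ⟨L, R, ?_, hR.symm, ?_⟩
  · rw [hL, List.reverse_reverse]
  · apply Cf.ext
    · simp [Cf.ext', hl, hl1']
    · exact (E.injS h2).symm
    · simp [Cf.ext', hr, hr1']

variable [Fintype Γ] [Fintype Λ] [Inhabited Γ] [Inhabited Λ] (M : TM0.Machine Γ Λ)

/-- The word of length one of a halting state. -/
def hw (i : Fin 3) : List ℕ := [E.eS (.h i)]

/-- The relations of the presentation of the machine. -/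
noncomputable def rels : List (List ℕ × List ℕ) :=
  (Finset.univ : Finset (Bool × Λ × NS Γ)).toList.map
    (fun i => (word E (lhs i), word E (rhs M i))) ++
  [(hw E 0, hw E 1), (hw E 1, hw E 2), (hw E 2, hw E 0)]

theorem mem_rels {u v : List ℕ} : (u, v) ∈ rels E M ↔
    (∃ i, u = word E (lhs i) ∧ v = word E (rhs M i)) ∨
      ∃ i : Fin 3, u = hw E i ∧ v = hw E (i + 1) := by
  unfold rels
  rw [List.mem_append]
  refine or_congr ?_ ?_
  · simp only [List.mem_map, Finset.mem_toList, Finset.mem_univ, true_and, Prod.mk.injEq]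
    exact exists_congr fun i => and_congr eq_comm eq_comm
  · simp only [List.mem_cons, List.not_mem_nil, or_false, Prod.mk.injEq]
    constructor
    · rintro (h | h | h)
      · exact ⟨0, h⟩
      · exact ⟨1, h⟩
      · exact ⟨2, h⟩
    · rintro ⟨i, h⟩
      fin_cases i
      · exact Or.inl h
      · exact Or.inr (Or.inl h)
      · exact Or.inr (Or.inr h)

theorem isPresentation_rels : IsPresentation n (rels E M) := by
  rintro ⟨u, v⟩ h
  rcases (mem_rels E M).1 h with ⟨i, rfl, rfl⟩ | ⟨i, rfl, rfl⟩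
  · exact ⟨isWord_word E _, isWord_word E _⟩
  · exact ⟨⟨by simp [hw], by simp [hw, E.ltS]⟩, ⟨by simp [hw], by simp [hw, E.ltS]⟩⟩

/-- The vertex of a configuration. -/
def vert (c : Cf Γ Λ) : Vertex n (rels E M) := ⟨word E c, isWord_word E c⟩

/-- The forward edges. -/
def IsF {x y : Vertex n (rels E M)} (e : Edge x y) : Prop :=
  ∃ i, e.u = word E (lhs i) ∧ e.v = word E (rhs M i)

/-- The vertices of non-halting configurations. -/
def Gd (x : Vertex n (rels E M)) : Prop :=
  ∃ c, x.word = word E c ∧ ¬ (eval (F M) c).Dom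

omit [Fintype Γ] [Fintype Λ] [Inhabited Γ] [Inhabited Λ] in
theorem hw_eq (i : Fin 3) : hw E i = word E (⟨[], .h i, []⟩ : Cf Γ Λ) := rfl

theorem not_gd_hw {x : Vertex n (rels E M)} {a b : List ℕ} {i : Fin 3}
    (h : x.word = a ++ hw E i ++ b) (hx : Gd E M x) : False := by
  obtain ⟨c, hc, hd⟩ := hx
  rw [hc, hw_eq] at h
  obtain ⟨L, R, rfl, rfl, rfl⟩ := decomp E h
  apply hd
  refine Part.dom_iff_mem.2 ⟨_, mem_eval.2 ⟨ReflTransGen.refl, ?_⟩⟩
  exact F_h M i _ _

theorem H2 {x y : Vertex n (rels E M)} (e : Edge x y) (hx : Gd E M x) :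
    IsF E M e ∨ IsF E M e.inv := by
  rcases e.rel with h | h
  · rcases (mem_rels E M).1 h with h | ⟨i, h1, h2⟩
    · exact Or.inl h
    · exact (not_gd_hw E M (h1 ▸ e.src) hx).elim
  · rcases (mem_rels E M).1 h with h | ⟨i, h1, h2⟩
    · exact Or.inr h
    · exact (not_gd_hw E M (h2 ▸ e.src) hx).elim

theorem H1 {x y : Vertex n (rels E M)} (e : Edge x y) (hx : Gd E M x) : Gd E M y := by
  obtain ⟨c, hc, hd⟩ := id hx
  rcases H2 E M e hx with ⟨i, h1, h2⟩ | ⟨i, h1, h2⟩
  · have := e.src
    rw [hc, h1] at this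
    obtain ⟨L, R, ha, hb, rfl⟩ := decomp E this
    refine ⟨(rhs M i).ext' L R, ?_, ?_⟩
    · rw [e.tgt, h2, word_ext, ha, hb]
    · rwa [← reaches_eval (f := F M) (a := (lhs i).ext' L R) (ReflTransGen.single (F_lhs M i L R))]
  · have := e.src
    change e.u = _ at h2
    change e.v = _ at h1
    rw [hc, h2] at this
    obtain ⟨L, R, ha, hb, rfl⟩ := decomp E this
    refine ⟨(lhs i).ext' L R, ?_, ?_⟩
    · rw [e.tgt, h1, word_ext, ha, hb]
    · rwa [reaches_eval (f := F M) (a := (lhs i).ext' L R) (ReflTransGen.single (F_lhs M i L R))]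

theorem H3 {x y z : Vertex n (rels E M)} (e : Edge x y) (f : Edge x z) (hx : Gd E M x)
    (he : IsF E M e) (hf : IsF E M f) : ∃ h : y = z, h ▸ e = f := by
  obtain ⟨c, hc, -⟩ := hx
  obtain ⟨i, hi1, hi2⟩ := he
  obtain ⟨j, hj1, hj2⟩ := hf
  have h1 := e.src
  rw [hc, hi1] at h1
  obtain ⟨L, R, ha, hb, hL⟩ := decomp E h1
  have h2 := f.src
  rw [hc, hj1] at h2
  obtain ⟨L', R', ha', hb', hL'⟩ := decomp E h2
  rw [hL] at hL'
  obtain ⟨rfl, rfl, rfl⟩ := lhs_inj i j L R L' R' hL'
  obtain ⟨y, hy⟩ := y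
  obtain ⟨z, hz⟩ := z
  have hyz : y = z := by
    have h3 := e.tgt
    have h4 := f.tgt
    dsimp only at h3 h4
    rw [h3, h4, ha, hb, hi2, ha', hb', hj2]
  subst hyz
  refine ⟨rfl, ?_⟩
  obtain ⟨a, u, v, b, h5, h6, h7⟩ := e
  obtain ⟨a', u', v', b', h5', h6', h7'⟩ := f
  dsimp only at ha hb hi1 hi2 ha' hb' hj1 hj2
  subst ha hb hi1 hi2 ha' hb' hj1 hj2
  rfl

theorem H4 {x y : Vertex n (rels E M)} (e : Edge x y) (he : IsF E M e) :
    x.word.length < y.word.length := by
  obtain ⟨i, h1, h2⟩ := he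
  rw [e.src, e.tgt, h1, h2]
  simp only [List.length_append, word_length, len_rhs]
  omega

theorem rank_zero {c : Cf Γ Λ} (h : ¬ (eval (F M) c).Dom) : rankAb (D (vert E M c)) = 0 := by
  have := subsingleton_D (IsF := IsF E M) (Gd E M) (H1 E M) (H2 E M) (H3 E M) (H4 E M)
    (w := vert E M c) ⟨c, rfl, h⟩
  exact rankAb_of_subsingleton _

/-- The weight of an edge. -/
def wt (u v : List ℕ) : ℤ :=
  (if u = hw E 2 ∧ v = hw E 0 then 1 else 0) - (if v = hw E 2 ∧ u = hw E 0 then 1 else 0)

omit [Fintype Γ] [Fintype Λ] [Inhabited Γ] [Inhabited Λ] in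
theorem wt_symm (u v : List ℕ) : wt E u v + wt E v u = 0 := by
  unfold wt
  ring

/-- The weight functor on paths. -/
noncomputable def wtPath (n : ℕ) (R : List (List ℕ × List ℕ)) (E : Enc Γ Λ n) :
    Paths (Vertex n R) ⥤ SingleObj (Multiplicative ℤ) :=
  Paths.lift
    { obj := fun _ => SingleObj.star _
      map := fun {x y} (e : Edge x y) => (Multiplicative.ofAdd (wt E e.u e.v) : Multiplicative ℤ) }

omit [Fintype Γ] [Fintype Λ] [Inhabited Γ] [Inhabited Λ] in
theorem wtPath_edge {R : List (List ℕ × List ℕ)} {x y : Vertex n R} (e : Edge x y) :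
    (wtPath n R E).map e.path = (Multiplicative.ofAdd (wt E e.u e.v) : Multiplicative ℤ) := by
  unfold wtPath Edge.path
  exact Paths.lift_toPath _ _

omit [Fintype Γ] [Fintype Λ] [Inhabited Γ] [Inhabited Λ] in
theorem wtPath_comp {R : List (List ℕ × List ℕ)} {x y z : Vertex n R} (e : Edge x y)
    (f : Edge y z) :
    (wtPath n R E).map (e.path ≫ f.path) =
      (Multiplicative.ofAdd (wt E e.u e.v + wt E f.u f.v) : Multiplicative ℤ) := by
  rw [CategoryTheory.Functor.map_comp, wtPath_edge, wtPath_edge, SingleObj.comp_as_mul,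
    ← ofAdd_add, add_comm]

/-- The weight functor on the fundamental groupoid. -/
noncomputable def wtF (n : ℕ) (R : List (List ℕ × List ℕ)) (E : Enc Γ Λ n) :
    Grpd n R ⥤ SingleObj (Multiplicative ℤ) :=
  CategoryTheory.Quotient.lift (stepRel n R) (wtPath n R E) (by
    intro x y f g h
    cases h with
    | cancel e =>
      rw [wtPath_comp]
      change _ = (1 : Multiplicative ℤ)
      rw [← ofAdd_zero]
      congr 1
      exact wt_symm E _ _
    | square a u v b u' v' c h h' hx hy hz ht =>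
      rw [wtPath_comp, wtPath_comp]
      congr 1
      exact add_comm _ _)

omit [Fintype Γ] [Fintype Λ] [Inhabited Γ] [Inhabited Λ] in
theorem wtF_cls {R : List (List ℕ × List ℕ)} {x y : Vertex n R} (e : Edge x y) :
    (wtF n R E).map (cls e) = (Multiplicative.ofAdd (wt E e.u e.v) : Multiplicative ℤ) :=
  wtPath_edge E e

/-- The weight homomorphism on a diagram group. -/
noncomputable def wtHom {R : List (List ℕ × List ℕ)} (w : Vertex n R) :
    D w →* Multiplicative ℤ where
  toFun f := (wtF n R E).map f.hom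
  map_one' := (wtF n R E).map_id _
  map_mul' f g := (wtF n R E).map_comp g.hom f.hom

/-- The class of an edge as an isomorphism. -/
def isoCls {R : List (List ℕ × List ℕ)} {x y : Vertex n R} (e : Edge x y) : base x ≅ base y :=
  ⟨cls e, cls e.inv, cls_inv e, inv_cls e⟩

theorem aux_mul (x y z : Multiplicative ℤ) (h1 : (y * z) * x = 1) (h2 : y * x = 1) : z = 1 := by
  rw [mul_assoc, mul_comm z, ← mul_assoc, h2, one_mul] at h1
  exact h1

omit [Fintype Γ] [Fintype Λ] [Inhabited Γ] [Inhabited Λ] in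
theorem rank_ne_zero_of_loop {R : List (List ℕ × List ℕ)} {w v : Vertex n R}
    (P : base w ≅ base v) (L : base v ≅ base v)
    (hL : ((wtF n R E).map L.hom : Multiplicative ℤ) ≠ 1) : rankAb (D w) ≠ 0 := by
  refine rankAb_ne_zero _ (wtHom E w) (P ≪≫ L ≪≫ P.symm) ?_
  intro h
  apply hL
  have h1 : (wtF n R E).map (P.hom ≫ L.hom ≫ P.inv) = (1 : Multiplicative ℤ) := h
  rw [CategoryTheory.Functor.map_comp, CategoryTheory.Functor.map_comp,
    SingleObj.comp_as_mul, SingleObj.comp_as_mul] at h1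
  have h2 : (wtF n R E).map (P.hom ≫ P.inv) = (1 : Multiplicative ℤ) := by
    rw [P.hom_inv_id]
    exact (wtF n R E).map_id _
  rw [CategoryTheory.Functor.map_comp, SingleObj.comp_as_mul] at h2
  exact aux_mul _ _ _ h1 h2

theorem stepEdge (c c' : Cf Γ Λ) (h : F M c = some c') :
    Nonempty (Edge (vert E M c) (vert E M c')) := by
  have key : ∀ (i : Bool × Λ × NS Γ) (L R : List (NS Γ)),
      Nonempty (Edge (vert E M ((lhs i).ext' L R)) (vert E M ((rhs M i).ext' L R))) := by
    intro i L R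
    exact ⟨⟨(L.map E.eN).reverse, word E (lhs i), word E (rhs M i), R.map E.eN,
      Or.inl ((mem_rels E M).2 (Or.inl ⟨i, rfl, rfl⟩)), word_ext E _ _ _, word_ext E _ _ _⟩⟩
  obtain ⟨l, s, r⟩ := c
  cases s with
  | R q =>
    cases r with
    | nil => exact absurd h (by simp [F])
    | cons x r =>
      have h' : F M ⟨l, .R q, x :: r⟩ = some ((rhs M (true, q, x)).ext' l r) := rfl
      rw [h'] at h
      cases h
      exact key (true, q, x) l r
  | L q =>
    cases l with
    | nil => exact absurd h (by simp [F])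
    | cons x l =>
      have h' : F M ⟨x :: l, .L q, r⟩ = some ((rhs M (false, q, x)).ext' l r) := rfl
      rw [h'] at h
      cases h
      exact key (false, q, x) l r
  | h i => exact absurd h (by simp [F])

theorem iso_of_reaches (c c' : Cf Γ Λ) (h : Reaches (F M) c c') :
    Nonempty (base (vert E M c) ≅ base (vert E M c')) := by
  induction h with
  | refl => exact ⟨Iso.refl _⟩
  | tail _ h ih =>
    obtain ⟨P⟩ := ih
    obtain ⟨e⟩ := stepEdge E M _ _ h
    exact ⟨P ≪≫ isoCls e⟩

/-- The edges of the triangle at a halting configuration. -/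
def triEdge (L R : List (NS Γ)) (i : Fin 3) :
    Edge (vert E M ⟨L, .h i, R⟩) (vert E M ⟨L, .h (i + 1), R⟩) where
  a := (L.map E.eN).reverse
  u := hw E i
  v := hw E (i + 1)
  b := R.map E.eN
  rel := Or.inl ((mem_rels E M).2 (Or.inr ⟨i, rfl, rfl⟩))
  src := by simp [vert, word, hw]
  tgt := by simp [vert, word, hw]

omit [Fintype Γ] [Fintype Λ] [Inhabited Γ] [Inhabited Λ] in
theorem hw_inj (i j : Fin 3) : hw E i = hw E j ↔ i = j := by
  simp [hw, E.injS.eq_iff]

theorem rank_ne_zero {c : Cf Γ Λ} {L R : List (NS Γ)}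
    (h : Reaches (F M) c ⟨L, .h 0, R⟩) : rankAb (D (vert E M c)) ≠ 0 := by
  obtain ⟨P⟩ := iso_of_reaches E M _ _ h
  refine rank_ne_zero_of_loop E P
    (isoCls (triEdge E M L R 0) ≪≫ isoCls (triEdge E M L R 1) ≪≫ isoCls (triEdge E M L R 2)) ?_
  intro h
  change (wtF n (rels E M) E).map (cls (triEdge E M L R 0) ≫ cls (triEdge E M L R 1) ≫
    cls (triEdge E M L R 2)) = (1 : Multiplicative ℤ) at h
  rw [CategoryTheory.Functor.map_comp, CategoryTheory.Functor.map_comp,
    SingleObj.comp_as_mul, SingleObj.comp_as_mul, wtF_cls, wtF_cls, wtF_cls] at h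
  have h0 : wt E (triEdge E M L R 0).u (triEdge E M L R 0).v = 0 := by
    simp [triEdge, wt, hw_inj]
  have h1 : wt E (triEdge E M L R 1).u (triEdge E M L R 1).v = 0 := by
    simp [triEdge, wt, hw_inj]
  have h2 : wt E (triEdge E M L R 2).u (triEdge E M L R 2).v = 1 := by
    simp [triEdge, wt, hw_inj]
  rw [h0, h1, h2] at h
  exact one_ne_zero (congrArg Multiplicative.toAdd h : (1 + 0 + 0 : ℤ) = 0)

/-- The diagram group of the initial word has rank zero exactly if the machine does not halt. -/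
theorem rank_eq_zero_iff (l : List Γ) :
    rankAb (D (vert E M (initCf l))) = 0 ↔ ¬ (eval (TM0.step M) (TM0.init l)).Dom := by
  constructor
  · intro h hd
    obtain ⟨L, R, hr⟩ := halts_reaches M _ _ (tr_init l) hd
    exact rank_ne_zero E M hr h
  · intro h
    exact rank_zero E M fun hd => h (dom_of_dom M _ _ (tr_init l) hd)

/-- The standard encoding. -/
noncomputable def stdEnc (Γ Λ : Type) [Fintype Γ] [Fintype Λ] :
    Enc Γ Λ (Fintype.card (NS Γ ⊕ St Λ)) where
  eN x := (Fintype.equivFin (NS Γ ⊕ St Λ) (Sum.inl x) : ℕ)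
  eS s := (Fintype.equivFin (NS Γ ⊕ St Λ) (Sum.inr s) : ℕ)
  injN x y h := by
    have := (Fintype.equivFin (NS Γ ⊕ St Λ)).injective (Fin.ext h)
    exact Sum.inl_injective this
  injS x y h := by
    have := (Fintype.equivFin (NS Γ ⊕ St Λ)).injective (Fin.ext h)
    exact Sum.inr_injective this
  disj x s h := by
    have := (Fintype.equivFin (NS Γ ⊕ St Λ)).injective (Fin.ext h)
    cases this
  ltN x := Fin.isLt _
  ltS s := Fin.isLt _

omit [Fintype Γ] [Fintype Λ] [Inhabited Γ] in
theorem word_initCf (l : List Γ) :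
    word E (initCf l : Cf Γ Λ) = [E.eN .lend, E.eS (.R default)] ++
      l.map (fun a => E.eN (.sym a)) ++ [E.eN .rend] := by
  simp [word, initCf, Function.comp_def]

end Pool.Agent.P07.Squier
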