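import Pool.Agent.P07.SquierDef

/-!
# A criterion for the triviality of a diagram group

If every edge at a vertex reachable from `w` is a forward edge or the inverse of one, and each
such vertex has at most one outgoing forward edge, and forward edges increase the length,
then the diagram group at `w` is trivial.
-/

open CategoryTheory TensorProduct

namespace Pool.Agent.P07.Squier

variable {n : ℕ} {R : List (List ℕ × List ℕ)}

/-- The class of an edge in the fundamental groupoid. -/
def cls {x y : Vertex n R} (e : Edge x y) : base x ⟶ base y :=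
  (CategoryTheory.Quotient.functor (stepRel n R)).map e.path

theorem cls_inv {x y : Vertex n R} (e : Edge x y) : cls e ≫ cls e.inv = 𝟙 _ := by
  have h := CategoryTheory.Quotient.sound (stepRel n R) (Step.cancel e)
  rw [CategoryTheory.Functor.map_comp, CategoryTheory.Functor.map_id] at h
  exact h

theorem inv_inv_edge {x y : Vertex n R} (e : Edge x y) : e.inv.inv = e := rfl

theorem inv_cls {x y : Vertex n R} (e : Edge x y) : cls e.inv ≫ cls e = 𝟙 _ :=
  cls_inv e.inv

/-- The class of a path in the fundamental groupoid. -/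
def pcls {x y : Vertex n R} (p : Quiver.Path x y) : base x ⟶ base y :=
  (CategoryTheory.Quotient.functor (stepRel n R)).map
    (X := (Paths.of (Vertex n R)).obj x) (Y := (Paths.of (Vertex n R)).obj y) p

theorem pcls_nil (x : Vertex n R) : pcls (Quiver.Path.nil : Quiver.Path x x) = 𝟙 _ :=
  (CategoryTheory.Quotient.functor (stepRel n R)).map_id _

theorem pcls_cons {x y z : Vertex n R} (p : Quiver.Path x y) (e : Edge y z) :
    pcls (p.cons e) = pcls p ≫ cls e := by
  have h := (CategoryTheory.Quotient.functor (stepRel n R)).map_comp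
    (X := (Paths.of (Vertex n R)).obj x) (Y := (Paths.of (Vertex n R)).obj y) p e.path
  exact h

theorem exists_pcls {x y : Vertex n R} (f : base x ⟶ base y) :
    ∃ p : Quiver.Path x y, f = pcls p := by
  obtain ⟨p, hp⟩ := (CategoryTheory.Quotient.functor (stepRel n R)).map_surjective f
  exact ⟨p, hp.symm⟩

section Trivial

variable (IsF : ∀ {x y : Vertex n R}, Edge x y → Prop)

/-- Compositions of forward edges. -/
inductive Fw : ∀ {x z : Vertex n R}, (base x ⟶ base z) → Prop
  | nil (x : Vertex n R) : Fw (𝟙 (base x))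
  | cons {x y z : Vertex n R} (e : Edge x y) (m : base y ⟶ base z) :
      IsF e → Fw m → Fw (cls e ≫ m)

variable {IsF}

theorem Fw.snoc {x y z : Vertex n R} {m : base x ⟶ base y} (hm : Fw IsF m) (e : Edge y z)
    (he : IsF e) : Fw IsF (m ≫ cls e) := by
  induction hm with
  | nil x =>
    have := Fw.cons e (𝟙 _) he (Fw.nil z)
    simpa using this
  | cons e' m' he' _ ih =>
    rw [Category.assoc]
    exact Fw.cons e' _ he' (ih e he)

variable (Gd : Vertex n R → Prop)
  (H1 : ∀ {x y : Vertex n R} (_ : Edge x y), Gd x → Gd y)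
  (H2 : ∀ {x y : Vertex n R} (e : Edge x y), Gd x → IsF e ∨ IsF e.inv)
  (H3 : ∀ {x y z : Vertex n R} (e : Edge x y) (f : Edge x z), Gd x → IsF e → IsF f →
    ∃ h : y = z, h ▸ e = f)
  (H4 : ∀ {x y : Vertex n R} (e : Edge x y), IsF e → x.word.length < y.word.length)

include H4 in
theorem Fw.length_le {x z : Vertex n R} {m : base x ⟶ base z} (hm : Fw IsF m) :
    x.word.length ≤ z.word.length := by
  induction hm with
  | nil x => exact le_rfl
  | cons e' m' he' _ ih => exact (H4 e' he').le.trans ih

include H1 H3 H4 in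
theorem Fw.unique {x z : Vertex n R} {m m' : base x ⟶ base z} (hx : Gd x)
    (hm : Fw IsF m) (hm' : Fw IsF m') : m = m' := by
  induction hm with
  | nil x =>
    cases hm' with
    | nil => rfl
    | cons e m he hm =>
      have h1 := H4 e he
      have h2 := hm.length_le H4
      omega
  | cons e m he hm ih =>
    cases hm' with
    | nil =>
      have h1 := H4 e he
      have h2 := hm.length_le H4
      omega
    | cons e' m' he' hm' =>
      obtain ⟨rfl, h⟩ := H3 e e' hx he he'
      subst h
      rw [ih (H1 e hx) hm']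

include H1 H2 H3 in
theorem exists_fw {x y : Vertex n R} (hx : Gd x) (p : Quiver.Path x y) :
    Gd y ∧ ∃ (z : Vertex n R) (m : base x ⟶ base z) (m' : base y ⟶ base z),
      Fw IsF m ∧ Fw IsF m' ∧ pcls p ≫ m' = m := by
  induction p with
  | nil => exact ⟨hx, x, 𝟙 _, 𝟙 _, Fw.nil x, Fw.nil x, by simp [pcls_nil]⟩
  | @cons b c p e ih =>
    obtain ⟨hb, z, m, m', hm, hm', hp⟩ := ih
    change Edge b c at e
    refine ⟨H1 e hb, ?_⟩
    rcases H2 e hb with he | he
    · cases hm' with
      | nil =>
        rw [Category.comp_id] at hp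
        refine ⟨c, m ≫ cls e, 𝟙 _, hm.snoc e he, Fw.nil c, ?_⟩
        rw [Category.comp_id, pcls_cons, hp]
      | cons e' m' he' hm' =>
        obtain ⟨rfl, h⟩ := H3 e e' hb he he'
        subst h
        exact ⟨z, m, m', hm, hm', by rw [pcls_cons, Category.assoc, hp]⟩
    · refine ⟨z, m, cls e.inv ≫ m', hm, Fw.cons e.inv m' he hm', ?_⟩
      rw [pcls_cons, Category.assoc, ← Category.assoc (cls e), cls_inv, Category.id_comp, hp]

instance isIso_cls {x y : Vertex n R} (e : Edge x y) : IsIso (cls e) :=
  ⟨cls e.inv, cls_inv e, inv_cls e⟩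

theorem Fw.isIso {x z : Vertex n R} {m : base x ⟶ base z} (hm : Fw IsF m) : IsIso m := by
  induction hm with
  | nil x => infer_instance
  | cons e' m' he' _ ih => infer_instance

include H1 H2 H3 H4 in
theorem subsingleton_D {w : Vertex n R} (hw : Gd w) : Subsingleton (D w) := by
  have key : ∀ f : D w, f = 1 := by
    intro f
    obtain ⟨p, hp⟩ := exists_pcls f.hom
    obtain ⟨-, z, m, m', hm, hm', h⟩ := exists_fw (IsF := IsF) Gd H1 H2 H3 hw p
    have hmm : m = m' := hm.unique Gd H1 H3 H4 hw hm'
    subst hmm
    have := hm.isIso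
    apply Iso.ext
    rw [hp]
    change pcls p = 𝟙 _
    rw [← cancel_mono m, h, Category.id_comp]
  exact ⟨fun a b => (key a).trans (key b).symm⟩

end Trivial

theorem rankAb_of_subsingleton (G : Type) [Group G] [Subsingleton G] : rankAb G = 0 := by
  have h1 : Subsingleton (Abelianization G) := by
    refine ⟨fun a b => ?_⟩
    obtain ⟨a, rfl⟩ := QuotientGroup.mk_surjective a
    obtain ⟨b, rfl⟩ := QuotientGroup.mk_surjective b
    rw [Subsingleton.elim a b]
  have h2 : Subsingleton (Additive (Abelianization G)) := h1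
  have h3 : Subsingleton (TensorProduct ℤ ℚ (Additive (Abelianization G))) := by
    refine ⟨fun a b => ?_⟩
    have : ∀ c : TensorProduct ℤ ℚ (Additive (Abelianization G)), c = 0 := by
      intro c
      induction c using TensorProduct.induction_on with
      | zero => rfl
      | tmul x y => rw [Subsingleton.elim y 0, TensorProduct.tmul_zero]
      | add x y hx hy => rw [hx, hy, add_zero]
    rw [this a, this b]
  unfold rankAb
  rw [rank_subsingleton']
  simp

theorem rankAb_ne_zero (G : Type) [Group G] (f : G →* Multiplicative ℤ) (g : G)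
    (hg : f g ≠ 1) : rankAb G ≠ 0 := by
  intro h
  unfold rankAb at h
  rw [Cardinal.toENat_eq_zero, rank_zero_iff] at h
  let φ : Additive (Abelianization G) →ₗ[ℤ] ℤ :=
    (MonoidHom.toAdditiveLeft (Abelianization.lift f)).toIntLinearMap
  have h1 : (1 : ℚ) ⊗ₜ[ℤ] Additive.ofMul (Abelianization.of g) = 0 := Subsingleton.elim _ _
  have h2 := congrArg (fun t => TensorProduct.rid ℤ ℚ (LinearMap.lTensor ℚ φ t)) h1
  simp only [LinearMap.lTensor_tmul, TensorProduct.rid_tmul, map_zero] at h2
  have h3 : φ (Additive.ofMul (Abelianization.of g)) = (f g).toAdd := rfl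
  rw [h3] at h2
  rcases smul_eq_zero.mp h2 with h4 | h4
  · exact hg h4
  · exact one_ne_zero h4

end Pool.Agent.P07.Squier
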